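import Pool.Agent.K6.H15.HO.Weighted

/-!
# Finite orbits for word metrics whose lengths are invariant under the holonomy
-/

set_option autoImplicit false

open Filter Topology
open Pool.Agent.Results.MP_3614fc_al.VirtuallyAbelian (wordLength IsHorofunction act)

namespace Pool.Agent.K6.H15.HO

/-- Pigeonhole: a word longer than the number of cosets of a normal subgroup has a nonempty
subword with product in the subgroup. -/
theorem cut {G : Type} [Group G] (N : Subgroup G) (hNf : N.FiniteIndex) (w : List G)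
    (hw : Nat.card (G ⧸ N) < w.length + 1) :
    ∃ a c b : List G, w = a ++ c ++ b ∧ 0 < c.length ∧ c.length ≤ Nat.card (G ⧸ N) ∧
      c.prod ∈ N := by
  classical
  have hfin : Finite (G ⧸ N) := Subgroup.finiteIndex_iff_finite_quotient.1 hNf
  set D := Nat.card (G ⧸ N) with hD
  have hcard : Nat.card (G ⧸ N) < Nat.card (Fin (D + 1)) := by simp [← hD]
  obtain ⟨i, j, hij, h⟩ : ∃ i j : Fin (D + 1), i ≠ j ∧
      (((w.take i).prod : G) : G ⧸ N) = (((w.take j).prod : G) : G ⧸ N) := by
    by_contra hc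
    push Not at hc
    have hinj : Function.Injective (fun i : Fin (D + 1) => (((w.take i).prod : G) : G ⧸ N)) := by
      intro i j hij
      by_contra hne
      exact hc i j hne hij
    have := Nat.card_le_card_of_injective _ hinj
    omega
  wlog hlt : i < j generalizing i j
  · exact this j i (Ne.symm hij) h.symm (lt_of_le_of_ne (not_lt.1 hlt) (Ne.symm hij))
  have hi : (i : ℕ) < j := hlt
  have hj : (j : ℕ) ≤ D := Nat.lt_succ_iff.1 j.2
  have hsplit : w.take j = w.take i ++ (w.take j).drop i := by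
    have h1 := (List.take_append_drop (i : ℕ) (w.take j)).symm
    rw [List.take_take, min_eq_left hi.le] at h1
    exact h1
  refine ⟨w.take i, (w.take j).drop i, w.drop j, ?_, ?_, ?_, ?_⟩
  · rw [← hsplit, List.take_append_drop]
  · rw [List.length_drop, List.length_take]
    omega
  · rw [List.length_drop, List.length_take]
    omega
  · have h1 : ((w.take i).prod)⁻¹ * (w.take j).prod ∈ N := QuotientGroup.eq.1 h
    rw [hsplit, List.prod_append, inv_mul_cancel_left] at h1
    exact h1

/-- The length grows at least like the homomorphism. -/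
theorem low_of_inv {G : Type} [Group G] (N : Subgroup G) (hNn : N.Normal) (hNf : N.FiniteIndex)
    (S : Finset G) (l : N →* Multiplicative ℤ) (m : ℤ) (hm : 0 < m) (R : ℕ)
    (hR : Nat.card (G ⧸ N) ≤ R)
    (hl : ∀ n : N, wordLength S (n : G) ≤ R →
      Multiplicative.toAdd (l n) ≤ m * wordLength S (n : G))
    (hinv : ∀ g : G, ∀ c : N, ∃ c' : N, wordLength S (c' : G) ≤ wordLength S (c : G) ∧
      l ⟨g * c * g⁻¹, hNn.conj_mem c c.2 g⟩ = l c') :
    ∀ (L : ℕ) (w : List G), w.length = L → (∀ s ∈ w, s ∈ S) → ∀ h : w.prod ∈ N,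
      Multiplicative.toAdd (l ⟨w.prod, h⟩) ≤ m * L := by
  intro L
  induction L using Nat.strong_induction_on with
  | _ L ih =>
    intro w hw hS h
    have hshort : ∀ v : List G, (∀ s ∈ v, s ∈ S) → ∀ h : v.prod ∈ N, v.length ≤ R →
        wordLength S v.prod ≤ v.length ∧
        Multiplicative.toAdd (l ⟨v.prod, h⟩) ≤ m * wordLength S v.prod := by
      intro v hv h hvR
      have h1 := wlen_le S v hv
      exact ⟨h1, hl ⟨v.prod, h⟩ (h1.trans hvR)⟩
    by_cases hLR : L ≤ R
    · obtain ⟨h1, h2⟩ := hshort w hS h (hw ▸ hLR)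
      refine h2.trans (mul_le_mul_of_nonneg_left ?_ hm.le)
      rw [hw] at h1
      exact_mod_cast h1
    · obtain ⟨a, c, b, rfl, hc0, hcD, hcN⟩ := cut N hNf w (by omega)
      have hlen : a.length + c.length + b.length = L := by
        rw [← hw]; simp [List.length_append, add_assoc]
      have hSa : ∀ s ∈ a, s ∈ S := fun s hs => hS s (by simp [hs])
      have hSc : ∀ s ∈ c, s ∈ S := fun s hs => hS s (by simp [hs])
      have hSb : ∀ s ∈ b, s ∈ S := fun s hs => hS s (by simp [hs])
      have hprod : (a ++ c ++ b).prod = (a.prod * c.prod * a.prod⁻¹) * (a ++ b).prod := by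
        simp only [List.prod_append]
        group
      have h1 : a.prod * c.prod * a.prod⁻¹ ∈ N := hNn.conj_mem _ hcN _
      have h2 : (a ++ b).prod ∈ N := by
        have h3 := N.mul_mem (N.inv_mem h1) h
        rwa [hprod, inv_mul_cancel_left] at h3
      have h3 : (⟨(a ++ c ++ b).prod, h⟩ : N) =
          ⟨a.prod * c.prod * a.prod⁻¹, h1⟩ * ⟨(a ++ b).prod, h2⟩ := Subtype.ext hprod
      rw [h3, map_mul, toAdd_mul]
      have h4 := ih (a.length + b.length) (by omega) (a ++ b) (by simp)
        (by intro s hs; rcases List.mem_append.1 hs with h | h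
            · exact hSa s h
            · exact hSb s h) h2
      have h5 : Multiplicative.toAdd (l ⟨a.prod * c.prod * a.prod⁻¹, h1⟩) ≤ m * c.length := by
        obtain ⟨c', hc1, hc2⟩ := hinv a.prod ⟨c.prod, hcN⟩
        have hc3 : l ⟨a.prod * c.prod * a.prod⁻¹, h1⟩ = l c' := hc2
        rw [hc3]
        have hc4 := wlen_le S c hSc
        have hc5 : wordLength S (c' : G) ≤ c.length := hc1.trans hc4
        have hc6 := hl c' (by omega)
        refine hc6.trans (mul_le_mul_of_nonneg_left ?_ hm.le)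
        exact_mod_cast hc5
      have h6 : (L : ℤ) = c.length + ((a.length + b.length : ℕ) : ℤ) := by
        rw [← hlen]; push_cast; ring
      rw [h6, mul_add]
      exact add_le_add h5 h4

/-- Additivity of the length on a submonoid, from a homomorphism which is extremal on it. -/
theorem additive_of' {G : Type} [Group G] (S : Finset G) (hs : ∀ s ∈ S, s⁻¹ ∈ S)
    (hS : Subgroup.closure (S : Set G) = ⊤) (N : Subgroup G) (l : N →* Multiplicative ℤ) (K : ℤ)
    (hK : 0 < K)
    (hlow : ∀ w : List G, (∀ s ∈ w, s ∈ S) → ∀ h : w.prod ∈ N,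
        Multiplicative.toAdd (l ⟨w.prod, h⟩) ≤ K * w.length)
    (X : Set G) (hX : ∀ x ∈ X, ∃ h : x ∈ N,
      Multiplicative.toAdd (l ⟨x, h⟩) = K * wordLength S x) :
    (∀ p ∈ Submonoid.closure X, p ∈ N) ∧
    ∀ p ∈ Submonoid.closure X, ∀ q ∈ Submonoid.closure X,
      wordLength S (p * q) = wordLength S p + wordLength S q := by
  have hlow' : ∀ g : G, ∀ h : g ∈ N, Multiplicative.toAdd (l ⟨g, h⟩) ≤ K * wordLength S g := by
    intro g h
    obtain ⟨w, hw1, hw2, rfl⟩ := wlen_geod S hs hS g
    rw [← hw1]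
    exact hlow w hw2 h
  have key : ∀ p ∈ Submonoid.closure X, ∃ h : p ∈ N,
      Multiplicative.toAdd (l ⟨p, h⟩) = K * wordLength S p := by
    have key0 : ∀ p ∈ Submonoid.closure X, ∃ h : p ∈ N, ∃ k : ℕ, wordLength S p ≤ k ∧
        Multiplicative.toAdd (l ⟨p, h⟩) = K * k := by
      intro p hp
      induction hp using Submonoid.closure_induction with
      | mem x hx =>
        obtain ⟨h2, h3⟩ := hX x hx
        exact ⟨h2, wordLength S x, le_rfl, h3⟩
      | one =>
        refine ⟨N.one_mem, 0, ?_, ?_⟩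
        · have := wlen_le S [] (by simp)
          simpa using this
        · have : (⟨1, N.one_mem⟩ : N) = 1 := rfl
          rw [this, map_one]
          simp
      | mul x y hx hy ihx ihy =>
        obtain ⟨h1, k1, h2, h3⟩ := ihx
        obtain ⟨h1', k2, h2', h3'⟩ := ihy
        refine ⟨N.mul_mem h1 h1', k1 + k2, ?_, ?_⟩
        · exact (wlen_mul_le S hs hS x y).trans (add_le_add h2 h2')
        · have : (⟨x * y, N.mul_mem h1 h1'⟩ : N) = ⟨x, h1⟩ * ⟨y, h1'⟩ := rfl
          rw [this, map_mul, toAdd_mul, h3, h3']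
          push_cast
          ring
    intro p hp
    obtain ⟨h, k, h1, h2⟩ := key0 p hp
    refine ⟨h, ?_⟩
    have h3 := hlow' p h
    rw [h2] at h3
    have h4 : (k : ℤ) ≤ wordLength S p := le_of_mul_le_mul_left h3 hK
    have h5 : k = wordLength S p := le_antisymm (by exact_mod_cast h4) h1
    rw [h2, h5]
  refine ⟨fun p hp => (key p hp).1, fun p hp q hq => ?_⟩
  obtain ⟨h1, h2⟩ := key p hp
  obtain ⟨h3, h4⟩ := key q hq
  obtain ⟨h5, h6⟩ := key (p * q) (mul_mem hp hq)
  have : (⟨p * q, h5⟩ : N) = ⟨p, h1⟩ * ⟨q, h3⟩ := rfl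
  rw [this, map_mul, toAdd_mul, h2, h4, ← mul_add] at h6
  have h7 := mul_left_cancel₀ hK.ne' h6
  exact_mod_cast h7.symm

/-- Finite orbits for holonomy invariant lengths. -/
theorem mainB (hORE : S_ORE) (hFIX : S_FIX) (hFIN : S_FIN) (hLPA : S_LPA)
    (G : Type) [Group G] (hi : Infinite G) (N : Subgroup G) (hNn : N.Normal)
    (hNf : N.FiniteIndex) (hNil : Group.IsNilpotent N) (S : Finset G) (hs : ∀ s ∈ S, s⁻¹ ∈ S)
    (hS : Subgroup.closure (S : Set G) = ⊤)
    (hH : ∀ g : G, ∀ c : N, ∃ c' : N, wordLength S (c' : G) ≤ wordLength S (c : G) ∧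
      ∃ k : ℕ, 0 < k ∧ ((⟨g * c * g⁻¹, hNn.conj_mem c c.2 g⟩ : N) * c'⁻¹) ^ k ∈ commutator N) :
    ∃ f : G → ℝ, IsHorofunction S f ∧ (Set.range fun g : G => act g f).Finite := by
  classical
  have hGfg : Group.FG G := by
    rw [Group.fg_def]
    exact ⟨S, hS⟩
  have hNfg : Group.FG N := by
    have := hGfg
    exact Subgroup.fg_of_index_ne_zero N
  have hNi : Infinite N := by
    by_contra hc
    rw [not_infinite_iff_finite] at hc
    have : Finite G := (Subgroup.finite_iff_finite_and_finiteIndex (H := N)).2 ⟨hc, hNf⟩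
    exact not_finite_iff_infinite.2 hi this
  obtain ⟨F, hF⟩ := Group.fg_def.1 hNfg
  obtain ⟨R₀, hR₀⟩ : ∃ R₀ : ℕ, ∀ n ∈ F, wordLength S (n : G) ≤ R₀ :=
    ⟨F.sup (fun n => wordLength S (n : G)), fun n hn => Finset.le_sup (f := fun n : N =>
      wordLength S (n : G)) hn⟩
  set R : ℕ := max (Nat.card (G ⧸ N)) R₀ with hR
  have hball : {n : N | n ≠ 1 ∧ wordLength S (n : G) ≤ R}.Finite := by
    refine ((wlen_ball S hs hS R).preimage (f := fun n : N => (n : G))
      Subtype.val_injective.injOn).subset ?_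
    intro n hn
    exact hn.2
  set T : Finset N := hball.toFinset with hTdef
  have hmem : ∀ n : N, n ∈ T ↔ n ≠ 1 ∧ wordLength S (n : G) ≤ R := fun n => by
    rw [hTdef, Set.Finite.mem_toFinset]; rfl
  have hk' : ∀ t : N, wordLength S ((t⁻¹ : N) : G) = wordLength S (t : G) := by
    intro t
    rw [InvMemClass.coe_inv, wlen_inv S hs hS]
  have hT1 : ∀ t ∈ T, t⁻¹ ∈ T := by
    intro t ht
    rw [hmem] at ht ⊢
    exact ⟨inv_ne_one.2 ht.1, by rw [hk']; exact ht.2⟩
  have hT2 : Subgroup.closure (T : Set N) = ⊤ := by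
    rw [eq_top_iff, ← hF, Subgroup.closure_le]
    intro n hn
    by_cases h1 : n = 1
    · rw [h1]; exact Subgroup.one_mem _
    · exact Subgroup.subset_closure ((hmem n).2 ⟨h1, (hR₀ n hn).trans (le_max_right _ _)⟩)
  have hpos : ∀ g : G, g ≠ 1 → 0 < wordLength S g := by
    intro g hg
    by_contra hc
    obtain ⟨w, hw1, -, hw2⟩ := wlen_geod S hs hS g
    have h0 : w.length = 0 := by omega
    rw [List.length_eq_zero_iff.1 h0] at hw2
    exact hg (by simpa using hw2.symm)
  obtain ⟨l, m, hm, hl1, hl2⟩ := wfacet hFIN hLPA N hNil hNfg hNi T hT1 hT2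
    (fun n : N => wordLength S (n : G))
    (fun t ht => hpos _ (fun h => ((hmem t).1 ht).1 (Subtype.ext h))) (fun t _ => hk' t)
  have hlinv : ∀ g : G, ∀ c : N, ∃ c' : N, wordLength S (c' : G) ≤ wordLength S (c : G) ∧
      l ⟨g * c * g⁻¹, hNn.conj_mem c c.2 g⟩ = l c' := by
    intro g c
    obtain ⟨c', h1, k, hk0, h2⟩ := hH g c
    refine ⟨c', h1, ?_⟩
    have h3 : commutator N ≤ l.ker := by
      rw [commutator_def, Subgroup.commutator_le]
      intro a _ b _
      rw [MonoidHom.mem_ker, commutatorElement_def, map_mul, map_mul, map_mul, map_inv, map_inv,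
        mul_comm (l a) (l b), mul_assoc, mul_assoc, ]
      group
    have h4 := MonoidHom.mem_ker.1 (h3 h2)
    rw [map_pow, map_mul, map_inv] at h4
    have h5 : k • Multiplicative.toAdd (l ⟨g * c * g⁻¹, hNn.conj_mem c c.2 g⟩ * (l c')⁻¹) = 0 := by
      rw [← toAdd_pow, h4]; rfl
    have h6 : Multiplicative.toAdd (l ⟨g * c * g⁻¹, hNn.conj_mem c c.2 g⟩ * (l c')⁻¹) = 0 := by
      rcases smul_eq_zero.1 h5 with h | h
      · omega
      · exact h
    have h7 : l ⟨g * c * g⁻¹, hNn.conj_mem c c.2 g⟩ * (l c')⁻¹ = 1 := by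
      apply Multiplicative.toAdd.injective
      rw [h6]; rfl
    exact mul_inv_eq_one.1 h7
  have hl0 : ∀ n : N, wordLength S (n : G) ≤ R →
      Multiplicative.toAdd (l n) ≤ m * wordLength S (n : G) := by
    intro n hn
    by_cases h1 : n = 1
    · rw [h1, map_one]
      simp only [toAdd_one]
      positivity
    · exact hl1 n ((hmem n).2 ⟨h1, hn⟩)
  have hlow := low_of_inv N hNn hNf S l m hm R (le_max_left _ _) hl0 hlinv
  set Y : Set N := {t | t ∈ T ∧ Multiplicative.toAdd (l t) = m * wordLength S (t : G)} with hY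
  obtain ⟨hP1, hP2⟩ := additive_of' S hs hS N l m hm
    (fun w hw h => hlow w.length w rfl hw h) ((fun n : N => (n : G)) '' Y) (by
      rintro _ ⟨t, ⟨ht, ht'⟩, rfl⟩
      exact ⟨t.2, ht'⟩)
  refine criterion S hORE hFIX hi hs hS N hNil _ hP1 hP2 ?_
  have h1 : (Subgroup.closure Y).FiniteIndex := hl2
  have h2 : ((Subgroup.closure Y).map N.subtype).FiniteIndex := by
    constructor
    rw [Subgroup.index_map_subtype]
    exact mul_ne_zero h1.index_ne_zero hNf.index_ne_zero
  refine Subgroup.finiteIndex_of_le (H := (Subgroup.closure Y).map N.subtype) ?_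
  rw [MonoidHom.map_closure, Subgroup.closure_le]
  rintro _ ⟨n, hn, rfl⟩
  exact Subgroup.subset_closure (Submonoid.subset_closure ⟨n, hn, rfl⟩)

end Pool.Agent.K6.H15.HO
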