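import Pool.Agent.K6.H15.HO.Stm
import Pool.Agent.Results.MP_3614fc_al.VirtuallyAbelian

/-!
# The criterion: submonoids with additive word length
-/

set_option autoImplicit false

open Filter Topology
open Pool.Agent.Results.MP_3614fc_al.VirtuallyAbelian (wordLength IsHorofunction act wordLength_eq)
open Pool.Agent.H205R3.Horo (wl)

namespace Pool.Agent.K6.H15.HO

variable {G : Type} [Group G] (S : Finset G)

theorem wlen_mul_le (hs : ∀ s ∈ S, s⁻¹ ∈ S) (hS : Subgroup.closure (S : Set G) = ⊤) (a b : G) :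
    wordLength S (a * b) ≤ wordLength S a + wordLength S b := by
  simp only [wordLength_eq S hs]
  exact Pool.Agent.Results.MP_3614fc_al.VirtuallyAbelian.wl_mul_le S hS a b

theorem wlen_inv (hs : ∀ s ∈ S, s⁻¹ ∈ S) (hS : Subgroup.closure (S : Set G) = ⊤) (a : G) :
    wordLength S a⁻¹ = wordLength S a := by
  simp only [wordLength_eq S hs]
  exact Pool.Agent.Results.MP_3614fc_al.VirtuallyAbelian.wl_inv S hS a

theorem wlen_ball (hs : ∀ s ∈ S, s⁻¹ ∈ S) (hS : Subgroup.closure (S : Set G) = ⊤) (R : ℕ) :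
    {g : G | wordLength S g ≤ R}.Finite := by
  simp only [wordLength_eq S hs]
  exact Pool.Agent.Results.MP_3614fc_al.VirtuallyAbelian.finite_ball S hS R

theorem wlen_le (l : List G) (hl : ∀ s ∈ l, s ∈ S) : wordLength S l.prod ≤ l.length :=
  Nat.sInf_le ⟨l, rfl, hl, rfl⟩

theorem wlen_geod (hs : ∀ s ∈ S, s⁻¹ ∈ S) (hS : Subgroup.closure (S : Set G) = ⊤) (g : G) :
    ∃ l : List G, l.length = wordLength S g ∧ (∀ s ∈ l, s ∈ S) ∧ l.prod = g := by
  have hne : {m : ℕ | ∃ l : List G, l.length = m ∧ (∀ s ∈ l, s ∈ S) ∧ l.prod = g}.Nonempty := by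
    have hg : g ∈ (Subgroup.closure (S : Set G)).toSubmonoid := by rw [hS]; trivial
    rw [Subgroup.closure_toSubmonoid] at hg
    obtain ⟨l, hl, hp⟩ := Submonoid.exists_list_of_mem_closure hg
    refine ⟨l.length, l, rfl, fun s h => ?_, hp⟩
    rcases hl s h with h | h
    · exact h
    · have := hs _ h
      rwa [inv_inv] at this
  exact Nat.sInf_mem hne

/-- The criterion. -/
theorem criterion (hORE : S_ORE) (hFIX : S_FIX) (hi : Infinite G) (hs : ∀ s ∈ S, s⁻¹ ∈ S)
    (hS : Subgroup.closure (S : Set G) = ⊤) (N : Subgroup G) (hN : Group.IsNilpotent N)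
    (P : Submonoid G) (hPN : ∀ p ∈ P, p ∈ N)
    (hP : ∀ p ∈ P, ∀ q ∈ P, wordLength S (p * q) = wordLength S p + wordLength S q)
    (hf : (Subgroup.closure (P : Set G)).FiniteIndex) :
    ∃ f : G → ℝ, IsHorofunction S f ∧ (Set.range fun g : G => act g f).Finite := by
  obtain ⟨f, hf1, hf2⟩ := hFIX G (wordLength S) hi (wlen_mul_le S hs hS) (wlen_inv S hs hS)
    (wlen_ball S hs hS) P hP (by
      intro p hp q hq
      obtain ⟨u, hu, v, hv, h⟩ := hORE N hN (P.comap N.subtype) ⟨p, hPN p hp⟩ hp ⟨q, hPN q hq⟩ hq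
      exact ⟨u, hu, v, hv, congrArg Subtype.val h⟩) hf
  exact ⟨f, hf1, hf2⟩

end Pool.Agent.K6.H15.HO
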