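import Pool.Agent.K6.H15.HO.Stm

set_option autoImplicit false

/-!
# Piece FIN: in a finitely generated nilpotent group a subgroup of finite index modulo the
commutator subgroup has finite index
-/

namespace Pool.Agent.K6.H15.HO.FIN

open Subgroup
open scoped commutatorElement

theorem conj_eq {G : Type} [Group G] {x g z : G} (h : x * g * x⁻¹ * g⁻¹ = z) :
    x * g * x⁻¹ = z * g := by
  rw [← h]; group

theorem comm_pow {G : Type} [Group G] (x g : G) (hz : ⁅x, g⁆ ∈ center G) (i j : ℕ) :
    ⁅x ^ i, g ^ j⁆ = ⁅x, g⁆ ^ (i * j) := by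
  have hzc : ∀ y, Commute ⁅x, g⁆ y := fun y => (mem_center_iff.1 hz y).symm
  have h1 : x * g * x⁻¹ = ⁅x, g⁆ * g := conj_eq (commutatorElement_def x g).symm
  have h2 : ∀ i : ℕ, x ^ i * g * (x ^ i)⁻¹ = ⁅x, g⁆ ^ i * g := by
    intro i
    induction i with
    | zero => simp
    | succ i ih =>
      have h3 : x ^ (i + 1) * g * (x ^ (i + 1))⁻¹ = x * (x ^ i * g * (x ^ i)⁻¹) * x⁻¹ := by
        rw [pow_succ']; group
      rw [h3, ih]
      have h4 : x * (⁅x, g⁆ ^ i * g) * x⁻¹ = ⁅x, g⁆ ^ i * (x * g * x⁻¹) := by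
        rw [← mul_assoc x, ← ((hzc x).pow_left i).eq]
        group
      rw [h4, h1, pow_succ, mul_assoc]
  have h5 : x ^ i * g ^ j * (x ^ i)⁻¹ = ⁅x, g⁆ ^ (i * j) * g ^ j := by
    rw [← conj_pow, h2 i, ((hzc g).pow_left i).mul_pow, ← pow_mul]
  rw [commutatorElement_def, h5, mul_assoc, mul_inv_cancel, mul_one]

theorem comm_left {G : Type} [Group G] (h a y : G) (ha : a ∈ center G) : ⁅h * a, y⁆ = ⁅h, y⁆ := by
  have h1 : a * y * a⁻¹ = y := by
    rw [← mem_center_iff.1 ha y]; group
  rw [commutatorElement_def, commutatorElement_def]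
  have h2 : h * a * y * (h * a)⁻¹ * y⁻¹ = h * (a * y * a⁻¹) * h⁻¹ * y⁻¹ := by group
  rw [h2, h1]

theorem comm_right {G : Type} [Group G] (h a y : G) (ha : a ∈ center G) :
    ⁅y, h * a⁆ = ⁅y, h⁆ := by
  rw [← commutatorElement_inv, comm_left h a y ha, commutatorElement_inv]

theorem lcs_map {G Q : Type} [Group G] [Group Q] (f : G →* Q) (hf : Function.Surjective f)
    (n : ℕ) : (⊤ : Subgroup Q).lowerCentralSeries n =
      ((⊤ : Subgroup G).lowerCentralSeries n).map f := by
  induction n with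
  | zero => exact (map_top_of_surjective f hf).symm
  | succ n ih =>
    rw [Subgroup.lowerCentralSeries_succ, Subgroup.lowerCentralSeries_succ, map_commutator, ← ih,
      map_top_of_surjective f hf]

theorem mem_sup_center {G : Type} [Group G] (H A : Subgroup G) [A.Normal] (x : G)
    (hx : x ∈ H ⊔ A) : ∃ h ∈ H, ∃ a ∈ A, h * a = x := by
  have h1 : x ∈ ((H ⊔ A : Subgroup G) : Set G) := hx
  rw [mul_normal] at h1
  obtain ⟨h, hh, a, ha, rfl⟩ := Set.mem_mul.1 h1
  exact ⟨h, hh, a, ha, rfl⟩

/-- the last step -/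
theorem last {N : Type} [Group N] [Group.FG N] (H A : Subgroup N) [hAn : A.Normal]
    (hA : A ≤ center N) (hK : (H ⊔ A).FiniteIndex) (k : ℕ) (hk : 0 < k)
    (hpow : ∀ a ∈ A, a ^ k ∈ H) : H.FiniteIndex := by
  set K : Subgroup N := H ⊔ A with hKdef
  have hHK : H ≤ K := le_sup_left
  have hAK : A ≤ K := le_sup_right
  have hnorm : (H.subgroupOf K).Normal := by
    rw [normal_subgroupOf_iff_le_normalizer hHK]
    refine sup_le le_normalizer (hA.trans ?_)
    exact center_le_normalizer _
  have hKfg : Group.FG K := fg_of_index_ne_zero K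
  have hQfg : Group.FG (K ⧸ H.subgroupOf K) := QuotientGroup.fg _
  have hrep : ∀ q : K ⧸ H.subgroupOf K, ∃ a : K, (a : N) ∈ A ∧ (QuotientGroup.mk a) = q := by
    intro q
    obtain ⟨x, rfl⟩ := QuotientGroup.mk_surjective q
    obtain ⟨h, hh, a, ha, hx⟩ := mem_sup_center H A (x : N) x.2
    refine ⟨⟨a, hAK ha⟩, ha, ?_⟩
    rw [QuotientGroup.eq]
    rw [mem_subgroupOf]
    have h1 : ((⟨a, hAK ha⟩ : K)⁻¹ * x : K) = (⟨h, hHK hh⟩ : K) := by
      apply Subtype.ext
      show a⁻¹ * (x : N) = h
      rw [← hx, mem_center_iff.1 (hA ha) h]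
      group
    rw [h1]
    exact hh
  have hcomm : ∀ p q : K ⧸ H.subgroupOf K, p * q = q * p := by
    intro p q
    obtain ⟨a, ha, rfl⟩ := hrep p
    obtain ⟨b, _, rfl⟩ := hrep q
    have h1 : a * b = b * a := by
      apply Subtype.ext
      exact (mem_center_iff.1 (hA ha) (b : N)).symm
    rw [← QuotientGroup.mk_mul, ← QuotientGroup.mk_mul, h1]
  let _ : CommGroup (K ⧸ H.subgroupOf K) := { (inferInstance : Group (K ⧸ H.subgroupOf K)) with
    mul_comm := hcomm }
  have htor : ∀ q : K ⧸ H.subgroupOf K, IsOfFinOrder q := by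
    intro q
    obtain ⟨a, ha, rfl⟩ := hrep q
    rw [isOfFinOrder_iff_pow_eq_one]
    refine ⟨k, hk, ?_⟩
    have h1 : ((a ^ k : K) : K ⧸ H.subgroupOf K) = 1 := by
      rw [QuotientGroup.eq_one_iff, mem_subgroupOf]
      exact hpow a ha
    exact h1
  have hfin : Finite (K ⧸ H.subgroupOf K) := by
    refine CommGroup.finite_of_fg_isMulTorsion (K ⧸ H.subgroupOf K) ?_
    exact htor
  have h1 : H.relIndex K ≠ 0 := by
    have h2 : (H.subgroupOf K).FiniteIndex := finiteIndex_of_finite_quotient
    exact h2.index_ne_zero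
  refine ⟨?_⟩
  rw [← relIndex_mul_index hHK]
  exact mul_ne_zero h1 hK.index_ne_zero

theorem main (n : ℕ) : ∀ (N : Type) [Group N], Group.FG N →
    (⊤ : Subgroup N).lowerCentralSeries (n + 1) = ⊥ → ∀ H : Subgroup N,
    (H ⊔ commutator N).FiniteIndex → H.FiniteIndex := by
  induction n with
  | zero =>
    intro N _ _ hn H hH
    have h1 : commutator N = ⊥ := by
      rw [← top_lowerCentralSeries_one]
      exact hn
    rw [h1, sup_bot_eq] at hH
    exact hH
  | succ n ih =>
    intro N _ hfg hn H hH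
    set A : Subgroup N := (⊤ : Subgroup N).lowerCentralSeries (n + 1) with hAdef
    have hAn : A.Normal := by rw [hAdef]; infer_instance
    have hA : A ≤ center N := by
      intro a ha
      rw [mem_center_iff]
      intro g
      have h1 : ⁅a, g⁆ ∈ (⊤ : Subgroup N).lowerCentralSeries (n + 1 + 1) := by
        rw [Subgroup.lowerCentralSeries_succ]
        exact commutator_mem_commutator ha (mem_top g)
      rw [hn, mem_bot, commutatorElement_eq_one_iff_mul_comm] at h1
      exact h1.symm
    -- the quotient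
    have hsurj : Function.Surjective (QuotientGroup.mk' A) := QuotientGroup.mk'_surjective A
    have hQ : (⊤ : Subgroup (N ⧸ A)).lowerCentralSeries (n + 1) = ⊥ := by
      rw [lcs_map (QuotientGroup.mk' A) hsurj, ← hAdef, (Subgroup.map_eq_bot_iff _).2]
      rw [QuotientGroup.ker_mk']
    have hcq : commutator (N ⧸ A) = (commutator N).map (QuotientGroup.mk' A) := by
      rw [← top_lowerCentralSeries_one, ← top_lowerCentralSeries_one,
        lcs_map (QuotientGroup.mk' A) hsurj]
    have hHQ : (H.map (QuotientGroup.mk' A) ⊔ commutator (N ⧸ A)).FiniteIndex := by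
      rw [hcq, ← Subgroup.map_sup]
      refine ⟨?_⟩
      rw [← index_comap_of_surjective _ hsurj, comap_map_eq]
      have h2 : (H ⊔ commutator N) ≤ (H ⊔ commutator N) ⊔ (QuotientGroup.mk' A).ker :=
        le_sup_left
      intro h0
      have h3 := relIndex_mul_index h2
      rw [h0, mul_zero] at h3
      exact hH.index_ne_zero h3.symm
    have hfgQ : Group.FG (N ⧸ A) := QuotientGroup.fg A
    have h3 := ih (N ⧸ A) hfgQ hQ (H.map (QuotientGroup.mk' A)) hHQ
    have hK : (H ⊔ A).FiniteIndex := by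
      refine ⟨?_⟩
      have h4 : H ⊔ A = comap (QuotientGroup.mk' A) (H.map (QuotientGroup.mk' A)) := by
        rw [comap_map_eq, QuotientGroup.ker_mk']
      rw [h4, index_comap_of_surjective _ hsurj]
      exact h3.index_ne_zero
    -- powers
    set m : ℕ := Nat.factorial (H ⊔ A).index with hm
    have hmpos : 0 < m := Nat.factorial_pos _
    have hpm : ∀ y : N, y ^ m ∈ H ⊔ A := by
      intro y
      obtain ⟨j, hj0, hjle, hj⟩ := exists_pow_mem_of_index_ne_zero hK.index_ne_zero y
      obtain ⟨c, hc⟩ := Nat.dvd_factorial hj0 hjle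
      rw [hm, hc, pow_mul]
      exact pow_mem hj c
    have hpow : ∀ a ∈ A, a ∈ center N ∧ a ^ (m * m) ∈ H := by
      intro a ha
      have ha' : a ∈ closure {x | ∃ p ∈ (⊤ : Subgroup N).lowerCentralSeries n,
          ∃ q ∈ (⊤ : Subgroup N), ⁅p, q⁆ = x} := ha
      induction ha' using closure_induction with
      | mem x hx =>
        obtain ⟨p, hp, q, hq, rfl⟩ := hx
        have hz : ⁅p, q⁆ ∈ center N := by
          apply hA
          rw [hAdef, Subgroup.lowerCentralSeries_succ]
          exact commutator_mem_commutator hp hq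
        refine ⟨hz, ?_⟩
        rw [← comm_pow p q hz]
        obtain ⟨h, hh, b, hb, hpe⟩ := mem_sup_center H A _ (hpm p)
        obtain ⟨h', hh', b', hb', hqe⟩ := mem_sup_center H A _ (hpm q)
        rw [← hpe, ← hqe, comm_left h b _ (hA hb), comm_right h' b' _ (hA hb'),
          commutatorElement_def]
        exact mul_mem (mul_mem (mul_mem hh hh') (inv_mem hh)) (inv_mem hh')
      | one => exact ⟨one_mem _, by rw [one_pow]; exact one_mem _⟩
      | mul x y hx hy ihx ihy =>
        obtain ⟨cx, px⟩ := ihx hx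
        obtain ⟨cy, py⟩ := ihy hy
        refine ⟨mul_mem cx cy, ?_⟩
        have h5 : Commute x y := (mem_center_iff.1 cx y).symm
        rw [h5.mul_pow]
        exact mul_mem px py
      | inv x hx ihx =>
        obtain ⟨cx, px⟩ := ihx hx
        refine ⟨inv_mem cx, ?_⟩
        rw [inv_pow]
        exact inv_mem px
    exact last H A hA hK (m * m) (Nat.mul_pos hmpos hmpos) fun a ha => (hpow a ha).2

theorem t_FIN : S_FIN := by
  intro N _ hnil hfg H hH
  obtain ⟨n, hn⟩ := (Subgroup.nilpotent_iff_lowerCentralSeries).1 hnil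
  refine main n N hfg ?_ H hH
  rw [Subgroup.lowerCentralSeries_succ, hn]
  exact commutator_bot_left _

end Pool.Agent.K6.H15.HO.FIN
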