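import Pool.Agent.K6.H15.HO.Stm

/-!
# MP_3614fc_al, piece FIX (helper4)

A submonoid with additive length, with the Ore property and generating a subgroup of finite index
gives a horofunction with finite orbit.
-/

set_option autoImplicit false

open Filter Topology

namespace Pool.Agent.K6.H15.HO.FIX

variable {G : Type} [Group G]

/-- the translation action on functions, normalised at the identity. -/
def act (g : G) (φ : G → ℝ) : G → ℝ := fun y => φ (g⁻¹ * y) - φ g⁻¹

lemma act_mul (a b : G) (φ : G → ℝ) : act (a * b) φ = act a (act b φ) := by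
  funext y
  simp only [act, mul_inv_rev, mul_assoc]
  ring

/-- finiteness of a submonoid of a group implies that its closure is finite. -/
lemma closure_finite (P : Submonoid G) (h : (P : Set G).Finite) :
    ((Subgroup.closure (P : Set G) : Subgroup G) : Set G).Finite := by
  have hinv : ∀ p ∈ P, p⁻¹ ∈ P := by
    intro p hp
    have h1 : ∃ a b : ℕ, a < b ∧ p ^ a = p ^ b := by
      have hnot : ¬ Function.Injective (fun n : ℕ => p ^ n) := by
        intro hinj
        have : (Set.range (fun n : ℕ => p ^ n)).Infinite := Set.infinite_range_of_injective hinj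
        exact this (h.subset (by rintro _ ⟨n, rfl⟩; exact P.pow_mem hp n))
      rw [Function.Injective] at hnot
      push Not at hnot
      obtain ⟨a, b, hab, hne⟩ := hnot
      rcases lt_or_gt_of_ne hne with h2 | h2
      · exact ⟨a, b, h2, hab⟩
      · exact ⟨b, a, h2, hab.symm⟩
    obtain ⟨a, b, hlt, hab⟩ := h1
    obtain ⟨c, rfl⟩ : ∃ c, b = a + (c + 1) := ⟨b - a - 1, by omega⟩
    have h3 : p ^ (c + 1) = 1 := by
      have h4 : p ^ a * 1 = p ^ a * p ^ (c + 1) := by rw [mul_one, ← pow_add]; exact hab
      exact (mul_left_cancel h4).symm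
    have h5 : p⁻¹ = p ^ c := by
      rw [inv_eq_iff_mul_eq_one, ← pow_succ']
      exact h3
    rw [h5]
    exact P.pow_mem hp c
  let K : Subgroup G :=
    { carrier := P
      one_mem' := P.one_mem
      mul_mem' := fun ha hb => P.mul_mem ha hb
      inv_mem' := fun {x} hx => hinv x hx }
  have : Subgroup.closure (P : Set G) ≤ K := (Subgroup.closure_le K).2 (fun x hx => hx)
  exact h.subset this

end FIX

open FIX in
theorem FIX.t_FIX : S_FIX := by
  intro G _ len hG hsub hinv hfin P hadd hore hidx
  classical
  have hlen1 : len 1 = 0 := by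
    have := hadd 1 P.one_mem 1 P.one_mem
    rw [mul_one] at this
    omega
  -- an element of positive length
  obtain ⟨p0, hp0, hp0'⟩ : ∃ p ∈ P, 0 < len p := by
    by_contra hcon
    push Not at hcon
    have h1 : (P : Set G).Finite := (hfin 0).subset (fun p hp => hcon p hp)
    have h2 := closure_finite P h1
    have h3 : Finite (Subgroup.closure (P : Set G)) := h2.to_subtype
    have h4 : Finite (G ⧸ Subgroup.closure (P : Set G)) := inferInstance
    have h5 : Finite G := Finite.of_equiv _
      (Subgroup.groupEquivQuotientProdSubgroup (s := Subgroup.closure (P : Set G))).symm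
    exact not_finite G
  -- countability
  have hcount : Countable G := by
    have h1 : (Set.univ : Set G) = ⋃ R : ℕ, {g : G | len g ≤ R} := by
      ext g
      simp only [Set.mem_univ, Set.mem_iUnion, true_iff]
      refine ⟨len g, ?_⟩
      change len g ≤ len g
      exact le_rfl
    have h2 : (Set.univ : Set G).Countable := by
      rw [h1]
      exact Set.countable_iUnion (fun R => (hfin R).countable)
    exact Set.countable_univ_iff.1 h2
  obtain ⟨e, he⟩ := exists_surjective_nat G
  let q : ℕ → G := fun n => if e n ∈ P then e n else 1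
  have hq : ∀ n, q n ∈ P := by
    intro n
    by_cases h : e n ∈ P
    · simp only [q, if_pos h]; exact h
    · simp only [q, if_neg h]; exact P.one_mem
  have hqs : ∀ p ∈ P, ∃ n, q n = p := by
    intro p hp
    obtain ⟨n, hn⟩ := he p
    refine ⟨n, ?_⟩
    simp only [q, hn, if_pos hp]
  -- the sequence
  have hstep : ∀ (n : ℕ) (x : P), ∃ x' : P, (∃ w ∈ P, (x' : G) = x * w) ∧
      (∃ w ∈ P, (x' : G) = q n * w) ∧ len x + 1 ≤ len (x' : G) := by
    intro n x
    obtain ⟨u, hu, v, hv, huv⟩ := hore x x.2 (q n) (hq n)
    refine ⟨⟨x * (u * p0), P.mul_mem x.2 (P.mul_mem hu hp0)⟩, ⟨u * p0, P.mul_mem hu hp0, rfl⟩,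
      ⟨v * p0, P.mul_mem hv hp0, ?_⟩, ?_⟩
    · simp only
      rw [← mul_assoc, huv, mul_assoc]
    · simp only
      rw [hadd x x.2 _ (P.mul_mem hu hp0), hadd u hu p0 hp0]
      omega
  choose nxt hn1 hn2 hn3 using hstep
  let X : ℕ → P := fun n => Nat.rec (⟨1, P.one_mem⟩ : P) (fun n x => nxt n x) n
  have hXs : ∀ n, X (n + 1) = nxt n (X n) := fun n => rfl
  let x : ℕ → G := fun n => (X n).1
  have hxP : ∀ n, x n ∈ P := fun n => (X n).2
  have hx1 : ∀ n, ∃ w ∈ P, x (n + 1) = x n * w := fun n => by
    have := hn1 n (X n)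
    rw [← hXs] at this
    exact this
  have hx2 : ∀ n, ∃ w ∈ P, x (n + 1) = q n * w := fun n => by
    have := hn2 n (X n)
    rw [← hXs] at this
    exact this
  have hx3 : ∀ n, n ≤ len (x n) := by
    intro n
    induction n with
    | zero => exact Nat.zero_le _
    | succ n ih =>
      have := hn3 n (X n)
      rw [← hXs] at this
      have h2 : len (x n) + 1 ≤ len (x (n + 1)) := this
      omega
  -- Busemann functions
  let b : G → G → ℝ := fun x y => (len (x⁻¹ * y) : ℝ) - (len x⁻¹ : ℝ)
  have hb1 : ∀ x ∈ P, ∀ w ∈ P, ∀ y, b (x * w) y ≤ b x y := by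
    intro x hx w hw y
    have h1 : len ((x * w)⁻¹ * y) ≤ len w + len (x⁻¹ * y) := by
      have := hsub w⁻¹ (x⁻¹ * y)
      rw [hinv w] at this
      rw [mul_inv_rev, mul_assoc]
      exact this
    have h2 : len (x * w)⁻¹ = len x⁻¹ + len w := by
      rw [hinv, hinv, hadd x hx w hw]
    simp only [b]
    have h1' : (len ((x * w)⁻¹ * y) : ℝ) ≤ len w + len (x⁻¹ * y) := by exact_mod_cast h1
    have h2' : (len (x * w)⁻¹ : ℝ) = len x⁻¹ + len w := by exact_mod_cast h2
    linarith
  have hb2 : ∀ x y, -(len y : ℝ) ≤ b x y := by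
    intro x y
    have h1 : len x⁻¹ ≤ len (x⁻¹ * y) + len y := by
      have := hsub (x⁻¹ * y) y⁻¹
      rw [mul_inv_cancel_right, hinv y] at this
      exact this
    have h1' : (len x⁻¹ : ℝ) ≤ len (x⁻¹ * y) + len y := by exact_mod_cast h1
    simp only [b]
    linarith
  have hb3 : ∀ h ∈ P, ∀ x ∈ P, ∀ y, b (h * x) (h * y) = b x y - len h := by
    intro h hh x hx y
    have h1 : (h * x)⁻¹ * (h * y) = x⁻¹ * y := by group
    have h2 : len (h * x)⁻¹ = len h + len x⁻¹ := by
      rw [hinv, hinv, hadd h hh x hx]
    have h2' : (len (h * x)⁻¹ : ℝ) = len h + len x⁻¹ := by exact_mod_cast h2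
    simp only [b]
    rw [h1, h2']
    ring
  have hanti : ∀ y, Antitone (fun n => b (x n) y) := by
    intro y
    refine antitone_nat_of_succ_le (fun n => ?_)
    obtain ⟨w, hw, hxw⟩ := hx1 n
    rw [hxw]
    exact hb1 _ (hxP n) w hw y
  have hbdd : ∀ y, BddBelow (Set.range (fun n => b (x n) y)) := by
    intro y
    refine ⟨-(len y : ℝ), ?_⟩
    rintro _ ⟨n, rfl⟩
    exact hb2 _ _
  let f : G → ℝ := fun y => ⨅ n, b (x n) y
  have hft : ∀ y, Tendsto (fun n => b (x n) y) atTop (𝓝 (f y)) :=
    fun y => tendsto_atTop_ciInf (hanti y) (hbdd y)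
  have hfle : ∀ p ∈ P, ∀ y, f y ≤ b p y := by
    intro p hp y
    obtain ⟨n, hn⟩ := hqs p hp
    obtain ⟨w, hw, hxw⟩ := hx2 n
    have h1 : f y ≤ b (x (n + 1)) y := ciInf_le (hbdd y) (n + 1)
    have h2 : b (x (n + 1)) y ≤ b p y := by
      rw [hxw, hn]
      exact hb1 p hp w hw y
    exact h1.trans h2
  have hfh : ∀ h ∈ P, ∀ y, f (h * y) = f y - len h := by
    intro h hh y
    apply le_antisymm
    · have h1 : f (h * y) + len h ≤ f y := by
        refine le_ciInf (fun n => ?_)
        have h2 := hfle (h * x n) (P.mul_mem hh (hxP n)) (h * y)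
        rw [hb3 h hh (x n) (hxP n) y] at h2
        linarith
      linarith
    · refine le_ciInf (fun n => ?_)
      obtain ⟨u, hu, v, hv, huv⟩ := hore (x n) (hxP n) h hh
      have h1 := hb1 (x n) (hxP n) u hu (h * y)
      rw [huv, hb3 h hh v hv y] at h1
      have h2 := hfle v hv y
      linarith
  have hf1 : f 1 = 0 := by
    have h1 : (fun n => b (x n) 1) = fun _ => (0 : ℝ) := by
      funext n
      simp [b]
    have h2 := hft 1
    rw [h1] at h2
    exact tendsto_nhds_unique h2 tendsto_const_nhds
  refine ⟨f, ⟨x, ?_, hft⟩, ?_⟩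
  · have h1 : Tendsto (fun n : ℕ => (n : ℝ)) atTop atTop := tendsto_natCast_atTop_atTop
    refine tendsto_atTop_mono (fun n => ?_) h1
    have h2 := hx3 n
    rw [← hinv] at h2
    exact_mod_cast h2
  · -- the stabiliser
    let K : Subgroup G :=
      { carrier := {h | act h f = f}
        one_mem' := by
          change act 1 f = f
          funext y
          simp [act, hf1]
        mul_mem' := by
          intro a c ha hc
          have ha' : act a f = f := ha
          have hc' : act c f = f := hc
          change act (a * c) f = f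
          rw [act_mul, hc', ha']
        inv_mem' := by
          intro a ha
          have ha' : act a f = f := ha
          change act a⁻¹ f = f
          have h1 : act a⁻¹ (act a f) = f := by
            rw [← act_mul, inv_mul_cancel]
            funext y
            simp [act, hf1]
          rw [ha'] at h1
          exact h1 }
    have hPK : Subgroup.closure (P : Set G) ≤ K := by
      rw [Subgroup.closure_le]
      intro h hh
      change act h f = f
      funext y
      have h1 := hfh h hh (h⁻¹ * y)
      rw [mul_inv_cancel_left] at h1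
      have h2 := hfh h hh h⁻¹
      rw [mul_inv_cancel, hf1] at h2
      simp only [act]
      linarith
    have hKi : K.FiniteIndex := Subgroup.finiteIndex_of_le hPK
    have hKf : Finite (G ⧸ K) := inferInstance
    have hsubset : Set.range (fun g : G => fun y : G => f (g⁻¹ * y) - f g⁻¹) ⊆
        Set.range (fun c : G ⧸ K => act c.out f) := by
      rintro _ ⟨g, rfl⟩
      refine ⟨(g : G ⧸ K), ?_⟩
      obtain ⟨k, hk⟩ := QuotientGroup.mk_out_eq_mul K g
      simp only
      rw [hk, act_mul]
      have h1 : act (k : G) f = f := k.2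
      rw [h1]
      rfl
    exact (Set.finite_range _).subset hsubset

end Pool.Agent.K6.H15.HO
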