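import Pool.Agent.K6.H15.HO.Stm

/-!
# Facets for generating sets of nilpotent groups
-/

set_option autoImplicit false

open Filter Topology

namespace Pool.Agent.K6.H15.HO

/-- An infinite finitely generated nilpotent group has infinite abelianization. -/
theorem infinite_ab (hFIN : S_FIN) (N : Type) [Group N] (hn : Group.IsNilpotent N)
    (hfg : Group.FG N) (hi : Infinite N) : Infinite (Abelianization N) := by
  by_contra hc
  rw [not_infinite_iff_finite] at hc
  have h1 : (commutator N).FiniteIndex := by
    rw [Subgroup.finiteIndex_iff_finite_quotient]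
    exact hc
  have h2 : ((⊥ : Subgroup N) ⊔ commutator N).FiniteIndex := by rwa [bot_sup_eq]
  have h3 : (⊥ : Subgroup N).FiniteIndex := hFIN N hn hfg ⊥ h2
  have h4 : Finite (N ⧸ (⊥ : Subgroup N)) := (Subgroup.finiteIndex_iff_finite_quotient).1 h3
  have h5 : Finite N := Finite.of_equiv _ (QuotientGroup.quotientBot (G := N)).toEquiv
  exact not_finite_iff_infinite.2 hi h5

/-- The comap of a subgroup of the abelianization. -/
theorem comap_closure (N : Type) [Group N] (X : Set N) :
    (Subgroup.closure (Abelianization.of '' X)).comap (Abelianization.of : N →* Abelianization N) ≤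
      Subgroup.closure X ⊔ commutator N := by
  rw [← MonoidHom.map_closure, Subgroup.comap_map_eq]
  apply sup_le_sup_left
  rw [Abelianization.ker_of]

theorem facet (hFIN : S_FIN) (hLPA : S_LPA) (N : Type) [Group N] (hn : Group.IsNilpotent N)
    (hfg : Group.FG N) (hi : Infinite N) (T : Finset N) (hT : ∀ t ∈ T, t⁻¹ ∈ T)
    (hT' : Subgroup.closure (T : Set N) = ⊤) :
    ∃ (l : N →* Multiplicative ℤ) (m : ℤ), 0 < m ∧ (∀ t ∈ T, Multiplicative.toAdd (l t) ≤ m) ∧
      ∀ L : ℕ, 0 < L → (Subgroup.closure ((fun t : N => t ^ L) ''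
        {t | t ∈ T ∧ Multiplicative.toAdd (l t) = m})).FiniteIndex := by
  classical
  have hia := infinite_ab hFIN N hn hfg hi
  let A := Additive (Abelianization N)
  have hfgA : AddGroup.FG A := by
    have := hfg
    have h1 : Group.FG (Abelianization N) := QuotientGroup.fg (commutator N)
    exact (AddGroup.fg_iff_mul_fg).2 h1
  have hiA : Infinite A := hia
  let TA : Finset A := T.image (fun t => Additive.ofMul (Abelianization.of t))
  have hTA : ∀ t ∈ TA, -t ∈ TA := by
    intro t ht
    obtain ⟨u, hu, rfl⟩ := Finset.mem_image.1 ht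
    exact Finset.mem_image.2 ⟨u⁻¹, hT u hu, by simp⟩
  have hTA' : AddSubgroup.closure (TA : Set A) = ⊤ := by
    have h1 : Subgroup.closure (Abelianization.of '' (T : Set N)) = ⊤ := by
      rw [← MonoidHom.map_closure, hT']
      rw [← MonoidHom.range_eq_map]
      exact MonoidHom.range_eq_top.2 (QuotientGroup.mk'_surjective _)
    have h2 := Subgroup.toAddSubgroup_closure (Abelianization.of '' (T : Set N))
    rw [h1] at h2
    have h3 : (TA : Set A) = Additive.toMul ⁻¹' (Abelianization.of '' (T : Set N)) := by
      ext a
      simp only [TA, Finset.coe_image, Set.mem_image, Finset.mem_coe, Set.mem_preimage]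
      constructor
      · rintro ⟨t, ht, rfl⟩
        exact ⟨t, ht, rfl⟩
      · rintro ⟨t, ht, h⟩
        exact ⟨t, ht, by rw [h]; rfl⟩
    rw [h3, ← h2]
    rfl
  obtain ⟨l, m, hm, hle, hL⟩ := hLPA A hfgA hiA TA hTA hTA'
  let f : Abelianization N →* Multiplicative ℤ :=
    { toFun := fun a => Multiplicative.ofAdd (l (Additive.ofMul a))
      map_one' := by simp
      map_mul' := fun a b => by simp }
  refine ⟨f.comp Abelianization.of, m, hm, ?_, ?_⟩
  · intro t ht
    exact hle _ (Finset.mem_image.2 ⟨t, ht, rfl⟩)
  · intro L hL0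
    have h1 := hL L hL0
    set X : Set N := (fun t : N => t ^ L) ''
        {t | t ∈ T ∧ Multiplicative.toAdd ((f.comp Abelianization.of) t) = m} with hX
    have h2 : (Subgroup.closure (Abelianization.of '' X)).FiniteIndex := by
      have h3 := Subgroup.toAddSubgroup_closure (Abelianization.of '' X)
      have h4 : (AddSubgroup.closure ((fun t : A => L • t) '' {t | t ∈ TA ∧ l t = m})) ≤
          Subgroup.toAddSubgroup (Subgroup.closure (Abelianization.of '' X)) := by
        rw [h3, AddSubgroup.closure_le]
        rintro _ ⟨a, ⟨ha, ha'⟩, rfl⟩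
        obtain ⟨t, ht, rfl⟩ := Finset.mem_image.1 ha
        apply AddSubgroup.subset_closure
        refine ⟨t ^ L, ⟨t, ⟨ht, ha'⟩, rfl⟩, ?_⟩
        rw [map_pow]
        rfl
      have h5 := AddSubgroup.finiteIndex_of_le h4
      exact (Subgroup.finiteIndex_toAddSubgroup_iff).1 h5
    have h6 : ((Subgroup.closure (Abelianization.of '' X)).comap
        (Abelianization.of : N →* Abelianization N)).FiniteIndex := by
      constructor
      have hsur : Function.Surjective (Abelianization.of : N →* Abelianization N) :=
        QuotientGroup.mk'_surjective _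
      rw [Subgroup.index_comap_of_surjective _ hsur]
      exact h2.index_ne_zero
    have h7 := Subgroup.finiteIndex_of_le (comap_closure N X)
    exact hFIN N hn hfg _ h7

end Pool.Agent.K6.H15.HO
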