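import Pool.Agent.K6.H15.HO.Stm

set_option autoImplicit false

namespace Pool.Agent.K6.H15.HO.LOW

open Classical in
/-- the homomorphism, extended by zero -/
noncomputable def ex {G : Type} [Group G] (N : Subgroup G) (l : N →* Multiplicative ℤ) (g : G) : ℤ :=
  if h : g ∈ N then Multiplicative.toAdd (l ⟨g, h⟩) else 0

theorem ex_of_mem {G : Type} [Group G] {N : Subgroup G} (l : N →* Multiplicative ℤ) {g : G}
    (h : g ∈ N) : ex N l g = Multiplicative.toAdd (l ⟨g, h⟩) := dif_pos h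

theorem ex_mul {G : Type} [Group G] {N : Subgroup G} (l : N →* Multiplicative ℤ) {a b : G}
    (ha : a ∈ N) (hb : b ∈ N) : ex N l (a * b) = ex N l a + ex N l b := by
  rw [ex_of_mem l ha, ex_of_mem l hb, ex_of_mem l (N.mul_mem ha hb), ← toAdd_mul, ← map_mul]
  rfl

theorem ex_one {G : Type} [Group G] {N : Subgroup G} (l : N →* Multiplicative ℤ) :
    ex N l 1 = 0 := by
  have := ex_mul l N.one_mem N.one_mem
  rw [mul_one] at this
  omega

open Classical in
/-- representatives -/
noncomputable def rp {G : Type} [Group G] (N : Subgroup G) (q : G ⧸ N) : G :=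
  if q = ((1 : G) : G ⧸ N) then 1 else q.out

theorem rp_mk {G : Type} [Group G] (N : Subgroup G) (q : G ⧸ N) : ((rp N q : G) : G ⧸ N) = q := by
  unfold rp
  split_ifs with h
  · exact h.symm
  · exact QuotientGroup.out_eq' q

theorem mem_rp {G : Type} [Group G] (N : Subgroup G) [hN : N.Normal] (g : G) :
    g * (rp N (g : G ⧸ N))⁻¹ ∈ N := by
  have h := QuotientGroup.eq.1 (rp_mk N (g : G ⧸ N))
  have h2 := hN.mem_comm h
  exact h2

theorem t_LOW : S_LOW := by
  intro G _ N hN hfin l S₀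
  have : Fintype (G ⧸ N) := Fintype.ofFinite _
  let c : (G ⧸ N) → G → ℤ := fun q s => ex N l (rp N q * s * (rp N ((rp N q * s : G) : G ⧸ N))⁻¹)
  refine ⟨∑ q : G ⧸ N, ∑ s ∈ S₀, |c q s|, ?_⟩
  intro K hK E hE w hw h
  let F : G → ℤ := fun g => ex N l (g * (rp N (g : G ⧸ N))⁻¹)
  have hF1 : F 1 = 0 := by
    show ex N l (1 * (rp N ((1 : G) : G ⧸ N))⁻¹) = 0
    have : rp N ((1 : G) : G ⧸ N) = 1 := if_pos rfl
    rw [this]
    simpa using ex_one l
  have hstep : ∀ g s : G, (s ∈ S₀ ∨ s ∈ E) → F (g * s) ≤ F g + K := by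
    intro g s hs
    rcases hs with hs | hs
    · have hq : ((g * s : G) : G ⧸ N) = ((rp N (g : G ⧸ N) * s : G) : G ⧸ N) := by
        rw [QuotientGroup.mk_mul, QuotientGroup.mk_mul, rp_mk]
      have e1 : F (g * s) = F g + c (g : G ⧸ N) s := by
        show ex N l (g * s * (rp N ((g * s : G) : G ⧸ N))⁻¹) = ex N l (g * (rp N (g : G ⧸ N))⁻¹) +
          ex N l (rp N (g : G ⧸ N) * s * (rp N ((rp N (g : G ⧸ N) * s : G) : G ⧸ N))⁻¹)
        rw [← ex_mul l (mem_rp N g) (mem_rp N _), hq]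
        congr 1
        group
      have e2 : c (g : G ⧸ N) s ≤ ∑ q : G ⧸ N, ∑ s ∈ S₀, |c q s| := by
        calc c (g : G ⧸ N) s ≤ |c (g : G ⧸ N) s| := le_abs_self _
          _ ≤ ∑ s ∈ S₀, |c (g : G ⧸ N) s| :=
            Finset.single_le_sum (f := fun s => |c (g : G ⧸ N) s|) (fun _ _ => abs_nonneg _) hs
          _ ≤ _ := Finset.single_le_sum (f := fun q => ∑ s ∈ S₀, |c q s|)
            (fun _ _ => Finset.sum_nonneg fun _ _ => abs_nonneg _) (Finset.mem_univ _)
      omega
    · obtain ⟨he, hle⟩ := hE s hs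
      have hq : ((g * s : G) : G ⧸ N) = (g : G ⧸ N) := by
        rw [QuotientGroup.mk_mul, (QuotientGroup.eq_one_iff s).2 he, mul_one]
      have hc := hN.conj_mem s he g
      have e1 : F (g * s) = ex N l (g * s * g⁻¹) + F g := by
        show ex N l (g * s * (rp N ((g * s : G) : G ⧸ N))⁻¹) = _ +
          ex N l (g * (rp N (g : G ⧸ N))⁻¹)
        rw [← ex_mul l hc (mem_rp N g), hq]
        congr 1
        group
      have e2 : ex N l (g * s * g⁻¹) ≤ K := by
        rw [ex_of_mem l hc]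
        exact hle g
      omega
  have hind : ∀ (w : List G), (∀ s ∈ w, s ∈ S₀ ∨ s ∈ E) → ∀ g, F (g * w.prod) ≤ F g + K * w.length := by
    intro w
    induction w with
    | nil => intro _ g; simp
    | cons s w ih =>
      intro hw g
      have h1 := ih (fun t ht => hw t (List.mem_cons_of_mem _ ht)) (g * s)
      have h2 := hstep g s (hw s List.mem_cons_self)
      rw [List.prod_cons, ← mul_assoc, List.length_cons]
      push_cast
      nlinarith
  have h1 := hind w hw 1
  rw [one_mul, hF1, zero_add] at h1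
  have h2 : F w.prod = Multiplicative.toAdd (l ⟨w.prod, h⟩) := by
    show ex N l (w.prod * (rp N ((w.prod : G) : G ⧸ N))⁻¹) = _
    have : ((w.prod : G) : G ⧸ N) = ((1 : G) : G ⧸ N) := (QuotientGroup.eq_one_iff _).2 h
    have h3 : rp N ((w.prod : G) : G ⧸ N) = 1 := if_pos this
    rw [h3, inv_one, mul_one, ex_of_mem l h]
  rw [← h2]
  exact h1

end Pool.Agent.K6.H15.HO.LOW
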