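import Pool.Agent.K6.H15.HO.Stm

/-!
# Piece LPA: a facet whose elements generate a subgroup of finite index
-/

set_option autoImplicit false

namespace Pool.Agent.K6.H15.HO.LPA

/-- an infinite finitely generated abelian group has a nonzero homomorphism to `ℤ` -/
theorem exists_hom (B : Type) [AddCommGroup B] (hfg : AddGroup.FG B) (hB : Infinite B) :
    ∃ (e : B →+ ℤ) (x : B), e x ≠ 0 := by
  have hfin : Module.Finite ℤ B := Module.Finite.iff_addGroup_fg.2 hfg
  have hnt : Nontrivial (B ⧸ Submodule.torsion ℤ B) := by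
    by_contra h
    rw [not_nontrivial_iff_subsingleton] at h
    have h2 : Module.IsTorsion ℤ B := by
      intro x
      have h3 : (Submodule.Quotient.mk x : B ⧸ Submodule.torsion ℤ B) = 0 :=
        Subsingleton.elim _ _
      rw [Submodule.Quotient.mk_eq_zero] at h3
      exact h3
    have h4 : Finite B := Module.finite_of_fg_torsion B h2
    exact not_finite B
  let b := Module.Free.chooseBasis ℤ (B ⧸ Submodule.torsion ℤ B)
  obtain ⟨i⟩ := b.index_nonempty
  obtain ⟨x, hx⟩ := Submodule.mkQ_surjective (Submodule.torsion ℤ B) (b i)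
  refine ⟨((b.coord i).comp (Submodule.mkQ _)).toAddMonoidHom, x, ?_⟩
  have h1 : ((b.coord i).comp (Submodule.mkQ _)).toAddMonoidHom x = 1 := by
    show b.coord i (Submodule.mkQ _ x) = 1
    rw [hx]
    simp
  rw [h1]
  exact one_ne_zero

/-- multiples -/
theorem mult_index (A : Type) [AddCommGroup A] (hfg : AddGroup.FG A) (W : Set A) (L : ℕ)
    (hL : 0 < L) (h : (AddSubgroup.closure W).FiniteIndex) :
    (AddSubgroup.closure ((fun t : A => L • t) '' W)).FiniteIndex := by
  set K := AddSubgroup.closure ((fun t : A => L • t) '' W) with hK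
  have h1 : ∀ y ∈ AddSubgroup.closure W, L • y ∈ K := by
    intro y hy
    induction hy using AddSubgroup.closure_induction with
    | mem x hx => exact AddSubgroup.subset_closure ⟨x, hx, rfl⟩
    | zero => rw [smul_zero]; exact K.zero_mem
    | add x y _ _ hx hy => rw [smul_add]; exact K.add_mem hx hy
    | neg x _ hx => rw [smul_neg]; exact K.neg_mem hx
  have h2 : IsAddTorsion (A ⧸ K) := by
    intro g
    obtain ⟨x, rfl⟩ := QuotientAddGroup.mk_surjective g
    rw [isOfFinAddOrder_iff_nsmul_eq_zero]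
    refine ⟨L * (AddSubgroup.closure W).index,
      Nat.mul_pos hL (Nat.pos_of_ne_zero h.index_ne_zero), ?_⟩
    rw [← QuotientAddGroup.mk_nsmul, QuotientAddGroup.eq_zero_iff, mul_smul]
    exact h1 _ (AddSubgroup.nsmul_index_mem _ x)
  have h3 : Finite (A ⧸ K) := AddCommGroup.finite_of_fg_isAddTorsion _ h2
  exact AddSubgroup.finiteIndex_of_finite_quotient

/-- more tight elements -/
theorem step (A : Type) [AddCommGroup A] (hfg : AddGroup.FG A) (T : Finset A)
    (hT : ∀ t ∈ T, -t ∈ T) (hgen : AddSubgroup.closure (T : Set A) = ⊤) (l : A →+ ℤ) (m : ℤ)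
    (hm : 0 < m) (hl : ∀ t ∈ T, l t ≤ m)
    (hW : ¬ (AddSubgroup.closure {t | t ∈ T ∧ l t = m}).FiniteIndex) :
    ∃ (l' : A →+ ℤ) (m' : ℤ), 0 < m' ∧ (∀ t ∈ T, l' t ≤ m') ∧
      (T.filter fun t => l t = m).card < (T.filter fun t => l' t = m').card := by
  set H := AddSubgroup.closure {t | t ∈ T ∧ l t = m} with hH
  have hinf : Infinite (A ⧸ H) := by
    rw [AddSubgroup.finiteIndex_iff_finite_quotient] at hW
    exact not_finite_iff_infinite.1 hW
  obtain ⟨e0, x0, he0⟩ := exists_hom (A ⧸ H) inferInstance hinf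
  obtain ⟨y0, rfl⟩ := QuotientAddGroup.mk_surjective x0
  let e : A →+ ℤ := e0.comp (QuotientAddGroup.mk' H)
  have heH : ∀ x ∈ H, e x = 0 := by
    intro x hx
    show e0 (QuotientAddGroup.mk' H x) = 0
    have : QuotientAddGroup.mk' H x = 0 := (QuotientAddGroup.eq_zero_iff x).2 hx
    rw [this, map_zero]
  have hne : ∃ t ∈ T, 0 < e t := by
    by_contra hcon
    push Not at hcon
    have h0 : ∀ t ∈ T, e t = 0 := by
      intro t ht
      have h1 := hcon t ht
      have h2 := hcon (-t) (hT t ht)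
      rw [map_neg] at h2
      omega
    apply he0
    show e y0 = 0
    have hy : y0 ∈ AddSubgroup.closure (T : Set A) := by rw [hgen]; exact AddSubgroup.mem_top _
    clear he0
    induction hy using AddSubgroup.closure_induction with
    | mem x hx => exact h0 x hx
    | zero => exact map_zero _
    | add x y _ _ hx hy => rw [map_add, hx, hy, add_zero]
    | neg x _ hx => rw [map_neg, hx, neg_zero]
  obtain ⟨t1, ht1, hpos1⟩ := hne
  obtain ⟨t0, ht0, hmin⟩ := Finset.exists_min_image (T.filter fun t => 0 < e t)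
    (fun t => ((m - l t : ℤ) : ℚ) / (e t : ℚ)) ⟨t1, Finset.mem_filter.2 ⟨ht1, hpos1⟩⟩
  rw [Finset.mem_filter] at ht0
  obtain ⟨ht0T, hb⟩ := ht0
  have hne0 : l t0 ≠ m := by
    intro h
    have := heH t0 (AddSubgroup.subset_closure ⟨ht0T, h⟩)
    omega
  have ha : 0 < m - l t0 := by
    have := hl t0 ht0T
    omega
  refine ⟨(e t0) • l + (m - l t0) • e, e t0 * m, mul_pos hb hm, ?_, ?_⟩
  · intro t ht
    show e t0 • l t + (m - l t0) • e t ≤ e t0 * m
    simp only [smul_eq_mul]
    have h1 := hl t ht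
    by_cases hpos : 0 < e t
    · have h2 := hmin t (Finset.mem_filter.2 ⟨ht, hpos⟩)
      have h3 : (0 : ℚ) < (e t0 : ℚ) := by exact_mod_cast hb
      have h4 : (0 : ℚ) < (e t : ℚ) := by exact_mod_cast hpos
      rw [div_le_div_iff₀ h3 h4] at h2
      have h5 : (m - l t0) * e t ≤ (m - l t) * e t0 := by exact_mod_cast h2
      nlinarith
    · have h2 : e t ≤ 0 := not_lt.1 hpos
      have h3 : (m - l t0) * e t ≤ 0 := mul_nonpos_of_nonneg_of_nonpos ha.le h2
      have h4 : e t0 * l t ≤ e t0 * m := mul_le_mul_of_nonneg_left h1 hb.le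
      linarith
  · apply Finset.card_lt_card
    rw [Finset.ssubset_iff_of_subset]
    · refine ⟨t0, Finset.mem_filter.2 ⟨ht0T, ?_⟩, ?_⟩
      · show e t0 • l t0 + (m - l t0) • e t0 = e t0 * m
        simp only [smul_eq_mul]
        ring
      · intro h
        exact hne0 (Finset.mem_filter.1 h).2
    · intro t ht
      rw [Finset.mem_filter] at ht ⊢
      refine ⟨ht.1, ?_⟩
      show e t0 • l t + (m - l t0) • e t = e t0 * m
      rw [heH t (AddSubgroup.subset_closure ⟨ht.1, ht.2⟩), ht.2]
      simp only [smul_eq_mul]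
      ring

theorem exists_max (A : Type) [AddCommGroup A] (hfg : AddGroup.FG A) (T : Finset A)
    (hT : ∀ t ∈ T, -t ∈ T) (hgen : AddSubgroup.closure (T : Set A) = ⊤) :
    ∀ (k : ℕ) (l : A →+ ℤ) (m : ℤ), 0 < m → (∀ t ∈ T, l t ≤ m) →
      T.card - (T.filter fun t => l t = m).card = k →
      ∃ (l' : A →+ ℤ) (m' : ℤ), 0 < m' ∧ (∀ t ∈ T, l' t ≤ m') ∧
        (AddSubgroup.closure {t | t ∈ T ∧ l' t = m'}).FiniteIndex := by
  intro k
  induction k using Nat.strong_induction_on with
  | _ k ih =>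
    intro l m hm hl hk
    by_cases hW : (AddSubgroup.closure {t | t ∈ T ∧ l t = m}).FiniteIndex
    · exact ⟨l, m, hm, hl, hW⟩
    · obtain ⟨l', m', hm', hl', hcard⟩ := step A hfg T hT hgen l m hm hl hW
      have h1 : (T.filter fun t => l' t = m').card ≤ T.card := Finset.card_filter_le _ _
      exact ih (T.card - (T.filter fun t => l' t = m').card) (by omega) l' m' hm' hl' rfl

theorem t_LPA : S_LPA := by
  intro A _ hfg _ T hT hgen
  obtain ⟨l, m, hm, hl, hfi⟩ := exists_max A hfg T hT hgen _ 0 1 one_pos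
    (fun t _ => by simp) rfl
  exact ⟨l, m, hm, hl, fun L hL => mult_index A hfg _ L hL hfi⟩

end Pool.Agent.K6.H15.HO.LPA
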