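import Pool.Agent.K6.H15.HO.Crit
import Pool.Agent.K6.H15.HO.Facet

/-!
# Every virtually nilpotent group has Cayley metrics with a finite orbit of horofunctions
-/

set_option autoImplicit false

open Filter Topology
open Pool.Agent.Results.MP_3614fc_al.VirtuallyAbelian (wordLength IsHorofunction act)

namespace Pool.Agent.K6.H15.HO

/-- A finite symmetric generating set containing a given finite set. -/
theorem exists_sym (G : Type) [Group G] (hfg : Group.FG G) (S₀ : Finset G) :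
    ∃ S : Finset G, S₀ ⊆ S ∧ (∀ s ∈ S, s⁻¹ ∈ S) ∧ Subgroup.closure (S : Set G) = ⊤ := by
  classical
  obtain ⟨F, hF⟩ := (Group.fg_def.1 hfg)
  refine ⟨(S₀ ∪ F) ∪ (S₀ ∪ F).image (fun s => s⁻¹), ?_, ?_, ?_⟩
  · exact fun s hs => Finset.mem_union_left _ (Finset.mem_union_left _ hs)
  · intro s hs
    rcases Finset.mem_union.1 hs with h | h
    · exact Finset.mem_union_right _ (Finset.mem_image.2 ⟨s, h, rfl⟩)
    · obtain ⟨t, ht, rfl⟩ := Finset.mem_image.1 h
      rw [inv_inv]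
      exact Finset.mem_union_left _ ht
  · rw [eq_top_iff, ← hF, Subgroup.closure_le]
    intro s hs
    exact Subgroup.subset_closure (Finset.mem_union_left _ (Finset.mem_union_right _ hs))

/-- Additivity of the length on a submonoid, from a homomorphism which is extremal on it. -/
theorem additive_of {G : Type} [Group G] (S : Finset G) (hs : ∀ s ∈ S, s⁻¹ ∈ S)
    (hS : Subgroup.closure (S : Set G) = ⊤) (N : Subgroup G) (l : N →* Multiplicative ℤ) (K : ℤ)
    (hK : 0 < K)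
    (hlow : ∀ w : List G, (∀ s ∈ w, s ∈ S) → ∀ h : w.prod ∈ N,
        Multiplicative.toAdd (l ⟨w.prod, h⟩) ≤ K * w.length)
    (X : Set G) (hX : ∀ x ∈ X, x ∈ S ∧ ∃ h : x ∈ N, Multiplicative.toAdd (l ⟨x, h⟩) = K) :
    (∀ p ∈ Submonoid.closure X, p ∈ N) ∧
    ∀ p ∈ Submonoid.closure X, ∀ q ∈ Submonoid.closure X,
      wordLength S (p * q) = wordLength S p + wordLength S q := by
  have hlow' : ∀ g : G, ∀ h : g ∈ N, Multiplicative.toAdd (l ⟨g, h⟩) ≤ K * wordLength S g := by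
    intro g h
    obtain ⟨w, hw1, hw2, rfl⟩ := wlen_geod S hs hS g
    rw [← hw1]
    exact hlow w hw2 h
  have key : ∀ p ∈ Submonoid.closure X, ∃ h : p ∈ N,
      Multiplicative.toAdd (l ⟨p, h⟩) = K * wordLength S p := by
    have key0 : ∀ p ∈ Submonoid.closure X, ∃ h : p ∈ N, ∃ k : ℕ, wordLength S p ≤ k ∧
        Multiplicative.toAdd (l ⟨p, h⟩) = K * k := by
      intro p hp
      induction hp using Submonoid.closure_induction with
      | mem x hx =>
        obtain ⟨h1, h2, h3⟩ := hX x hx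
        refine ⟨h2, 1, ?_, by rw [h3]; simp⟩
        have := wlen_le S [x] (by simpa using h1)
        simpa using this
      | one =>
        refine ⟨N.one_mem, 0, ?_, ?_⟩
        · have := wlen_le S [] (by simp)
          simpa using this
        · have : (⟨1, N.one_mem⟩ : N) = 1 := rfl
          rw [this, map_one]
          simp
      | mul x y hx hy ihx ihy =>
        obtain ⟨h1, k1, h2, h3⟩ := ihx
        obtain ⟨h1', k2, h2', h3'⟩ := ihy
        refine ⟨N.mul_mem h1 h1', k1 + k2, ?_, ?_⟩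
        · exact (wlen_mul_le S hs hS x y).trans (add_le_add h2 h2')
        · have : (⟨x * y, N.mul_mem h1 h1'⟩ : N) = ⟨x, h1⟩ * ⟨y, h1'⟩ := rfl
          rw [this, map_mul, toAdd_mul, h3, h3']
          push_cast
          ring
    intro p hp
    obtain ⟨h, k, h1, h2⟩ := key0 p hp
    refine ⟨h, ?_⟩
    have h3 := hlow' p h
    rw [h2] at h3
    have h4 : (k : ℤ) ≤ wordLength S p := le_of_mul_le_mul_left h3 hK
    have h5 : k = wordLength S p := le_antisymm (by exact_mod_cast h4) h1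
    rw [h2, h5]
  refine ⟨fun p hp => (key p hp).1, fun p hp q hq => ?_⟩
  obtain ⟨h1, h2⟩ := key p hp
  obtain ⟨h3, h4⟩ := key q hq
  obtain ⟨h5, h6⟩ := key (p * q) (mul_mem hp hq)
  have : (⟨p * q, h5⟩ : N) = ⟨p, h1⟩ * ⟨q, h3⟩ := rfl
  rw [this, map_mul, toAdd_mul, h2, h4, ← mul_add] at h6
  have h7 := mul_left_cancel₀ hK.ne' h6
  exact_mod_cast h7.symm

theorem main (hORE : S_ORE) (hFIX : S_FIX) (hFIN : S_FIN) (hLPA : S_LPA) (hLOW : S_LOW)
    (hSET : S_SET) (G : Type) [Group G] (hfg : Group.FG G) (hi : Infinite G)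
    (hn : ∃ H : Subgroup G, H.FiniteIndex ∧ Group.IsNilpotent ↥H) (S₀ : Finset G) :
    ∃ S : Finset G, S₀ ⊆ S ∧ (∀ s ∈ S, s⁻¹ ∈ S) ∧ Subgroup.closure (S : Set G) = ⊤ ∧
      ∃ f : G → ℝ, IsHorofunction S f ∧ (Set.range fun g : G => act g f).Finite := by
  classical
  obtain ⟨N, hNn, hNf, hNil, T, hT1, hT2, hT3⟩ := hSET G hfg hn
  have hNfg : Group.FG N := by
    rw [Group.fg_def]
    exact ⟨T, hT2⟩
  have hNi : Infinite N := by
    by_contra hc
    rw [not_infinite_iff_finite] at hc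
    have : Finite G := (Subgroup.finite_iff_finite_and_finiteIndex (H := N)).2 ⟨hc, hNf⟩
    exact not_finite_iff_infinite.2 hi this
  obtain ⟨l, m, hm, hl1, hl2⟩ := facet hFIN hLPA N hNil hNfg hNi T hT1 hT2
  obtain ⟨S₁, h01, hs1, hS1⟩ := exists_sym G hfg S₀
  obtain ⟨C, hC⟩ := hLOW G N hNn hNf l S₁
  obtain ⟨L, hL⟩ : ∃ L : ℕ, 0 < L ∧ C ≤ L * m := by
    refine ⟨C.toNat + 1, Nat.succ_pos _, ?_⟩
    have h1 : C ≤ C.toNat := Int.self_le_toNat C
    have h2 : (0 : ℤ) ≤ C.toNat := Int.natCast_nonneg _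
    push_cast
    nlinarith
  obtain ⟨hL0, hLC⟩ := hL
  set S : Finset G := S₁ ∪ T.image (fun t : N => (t : G) ^ L) with hSdef
  have hs : ∀ s ∈ S, s⁻¹ ∈ S := by
    intro s h
    rcases Finset.mem_union.1 h with h | h
    · exact Finset.mem_union_left _ (hs1 s h)
    · obtain ⟨t, ht, rfl⟩ := Finset.mem_image.1 h
      refine Finset.mem_union_right _ (Finset.mem_image.2 ⟨t⁻¹, hT1 t ht, ?_⟩)
      simp
  have hS : Subgroup.closure (S : Set G) = ⊤ := by
    rw [eq_top_iff, ← hS1]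
    exact Subgroup.closure_mono (fun s hs => Finset.mem_union_left _ hs)
  refine ⟨S, fun s h => Finset.mem_union_left _ (h01 h), hs, hS, ?_⟩
  have hE : ∀ t ∈ T, ∀ g : G, Multiplicative.toAdd
      (l ⟨g * (t : G) * g⁻¹, hNn.conj_mem t t.2 g⟩) ≤ m := by
    intro t ht g
    obtain ⟨t', ht', n, h⟩ := hT3 g t ht
    have h1 : (⟨g * (t : G) * g⁻¹, hNn.conj_mem t t.2 g⟩ : N) = n * t' * n⁻¹ := Subtype.ext h
    have h2 : l (n * t' * n⁻¹) = l t' := by
      rw [map_mul, map_mul, map_inv, mul_comm, inv_mul_cancel_left]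
    rw [h1, h2]
    exact hl1 t' ht'
  have hlow := hC (L * m) hLC ((fun t : N => (t : G) ^ L) '' {t | t ∈ T}) (by
    rintro _ ⟨t, ht, rfl⟩
    refine ⟨N.pow_mem t.2 L, fun g => ?_⟩
    have h1 : (⟨g * (t : G) ^ L * g⁻¹, hNn.conj_mem _ (N.pow_mem t.2 L) g⟩ : N) =
        (⟨g * (t : G) * g⁻¹, hNn.conj_mem t t.2 g⟩ : N) ^ L := by
      apply Subtype.ext
      simp [conj_pow]
    rw [h1, map_pow, toAdd_pow, nsmul_eq_mul]
    exact mul_le_mul_of_nonneg_left (hE t ht g) (Int.natCast_nonneg _))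
  have hlow' : ∀ w : List G, (∀ s ∈ w, s ∈ S) → ∀ h : w.prod ∈ N,
        Multiplicative.toAdd (l ⟨w.prod, h⟩) ≤ (L * m) * w.length := by
    intro w hw h
    refine hlow w (fun s h => ?_) h
    rcases Finset.mem_union.1 (hw s h) with h | h
    · exact Or.inl h
    · obtain ⟨t, ht, rfl⟩ := Finset.mem_image.1 h
      exact Or.inr ⟨t, ht, rfl⟩
  set Y : Set N := (fun t : N => t ^ L) '' {t | t ∈ T ∧ Multiplicative.toAdd (l t) = m} with hY
  obtain ⟨hP1, hP2⟩ := additive_of S hs hS N l (L * m) (by positivity) hlow'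
    ((fun n : N => (n : G)) '' Y) (by
      rintro _ ⟨_, ⟨t, ⟨ht, ht'⟩, rfl⟩, rfl⟩
      refine ⟨Finset.mem_union_right _ (Finset.mem_image.2 ⟨t, ht, by simp⟩),
        (t ^ L).2, ?_⟩
      have : (⟨((t ^ L : N) : G), (t ^ L).2⟩ : N) = t ^ L := rfl
      rw [this, map_pow, toAdd_pow, ht', nsmul_eq_mul])
  refine criterion S hORE hFIX hi hs hS N hNil _ hP1 hP2 ?_
  have h1 : (Subgroup.closure Y).FiniteIndex := hl2 L hL0
  have h2 : ((Subgroup.closure Y).map N.subtype).FiniteIndex := by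
    constructor
    rw [Subgroup.index_map_subtype]
    exact mul_ne_zero h1.index_ne_zero hNf.index_ne_zero
  refine Subgroup.finiteIndex_of_le (H := (Subgroup.closure Y).map N.subtype) ?_
  rw [MonoidHom.map_closure, Subgroup.closure_le]
  rintro _ ⟨n, hn, rfl⟩
  exact Subgroup.subset_closure (Submonoid.subset_closure ⟨n, hn, rfl⟩)

end Pool.Agent.K6.H15.HO
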