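import Pool.Agent.K6.H15.HO.Stm

/-!
# Piece ORE: the Ore property of all submonoids of a nilpotent group
-/

set_option autoImplicit false

namespace Pool.Agent.K6.H15.HO

open scoped commutatorElement

lemma ORE.seq {G : Type} [Group G] (P : Submonoid G) {p q : G} (hp : p ∈ P) (hq : q ∈ P)
    (n : ℕ) : ∃ x y : G, x * y⁻¹ ∈ (⊤ : Subgroup G).lowerCentralSeries n ∧ (∃ u ∈ P, x = p * u) ∧
      ∃ v ∈ P, y = q * v := by
  induction n with
  | zero =>
    refine ⟨p, q, ?_, ⟨1, P.one_mem, (mul_one p).symm⟩, ⟨1, P.one_mem, (mul_one q).symm⟩⟩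
    simp
  | succ n ih =>
    obtain ⟨x, y, hxy, ⟨u, hu, hxu⟩, ⟨v, hv, hyv⟩⟩ := ih
    have hx : x ∈ P := by
      rw [hxu]
      exact P.mul_mem hp hu
    have hy : y ∈ P := by
      rw [hyv]
      exact P.mul_mem hq hv
    refine ⟨x * y, y * x, ?_, ⟨u * y, P.mul_mem hu hy, ?_⟩, ⟨v * x, P.mul_mem hv hx, ?_⟩⟩
    · have h1 : x * y * (y * x)⁻¹ = ⁅x * y⁻¹, y⁆ := by
        rw [commutatorElement_def]
        group
      rw [h1]
      exact Subgroup.commutator_mem_commutator hxy (Subgroup.mem_top y)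
    · rw [hxu, mul_assoc]
    · rw [hyv, mul_assoc]

theorem t_ORE : S_ORE := by
  intro G _ hG P p hp q hq
  obtain ⟨n, hn⟩ := (Subgroup.nilpotent_iff_lowerCentralSeries (G := G)).mp hG
  obtain ⟨x, y, hxy, ⟨u, hu, hxu⟩, ⟨v, hv, hyv⟩⟩ := ORE.seq P hp hq n
  refine ⟨u, hu, v, hv, ?_⟩
  rw [hn, Subgroup.mem_bot, mul_inv_eq_one] at hxy
  rw [← hxu, ← hyv, hxy]

end Pool.Agent.K6.H15.HO
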