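import Pool.Agent.K6.H15.HO.Stm

set_option autoImplicit false

namespace Pool.Agent.K6.H15.HO.SET

theorem t_SET : S_SET := by
  classical
  intro G _ hG hH
  obtain ⟨H, hfi, hnil⟩ := hH
  have hN : H.normalCore.Normal := H.normalCore_normal
  have hNf : H.normalCore.FiniteIndex := inferInstance
  have hNle : H.normalCore ≤ H := H.normalCore_le
  set N := H.normalCore with hNdef
  have hNnil : Group.IsNilpotent ↥N := by
    have h1 : Group.IsNilpotent ↥(N.subgroupOf H) := inferInstance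
    exact Group.nilpotent_of_mulEquiv (Subgroup.subgroupOfEquivOfLe hNle)
  have hNfg : Group.FG ↥N := inferInstance
  obtain ⟨S, hS⟩ := hNfg.out
  have : Fintype (G ⧸ N) := Fintype.ofFinite _
  let R : Finset G := insert 1 (Finset.univ.image (fun q : G ⧸ N => q.out))
  let T0 : Finset N := S ∪ S.image (fun t => t⁻¹)
  let f : G × N → N := fun x => ⟨x.1 * (x.2 : G) * x.1⁻¹, hN.conj_mem _ x.2.2 _⟩
  let T : Finset N := (R ×ˢ T0).image f
  have hT0 : ∀ t ∈ T0, t⁻¹ ∈ T0 := by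
    intro t ht
    rcases Finset.mem_union.1 ht with h | h
    · exact Finset.mem_union_right _ (Finset.mem_image_of_mem _ h)
    · obtain ⟨s, hs, rfl⟩ := Finset.mem_image.1 h
      exact Finset.mem_union_left _ (by simpa using hs)
  have hmem : ∀ t : N, t ∈ T ↔ ∃ r ∈ R, ∃ s ∈ T0, f (r, s) = t := by
    intro t
    constructor
    · intro h
      obtain ⟨⟨r, s⟩, hx, hx2⟩ := Finset.mem_image.1 h
      rw [Finset.mem_product] at hx
      exact ⟨r, hx.1, s, hx.2, hx2⟩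
    · rintro ⟨r, hr, s, hs, h⟩
      exact Finset.mem_image.2 ⟨(r, s), Finset.mem_product.2 ⟨hr, hs⟩, h⟩
  refine ⟨N, hN, hNf, hNnil, T, ?_, ?_, ?_⟩
  · intro t ht
    obtain ⟨r, hr, s, hs, rfl⟩ := (hmem t).1 ht
    refine (hmem _).2 ⟨r, hr, s⁻¹, hT0 s hs, ?_⟩
    apply Subtype.ext
    show r * ((s⁻¹ : N) : G) * r⁻¹ = ((f (r, s))⁻¹ : N)
    rw [Subgroup.coe_inv, Subgroup.coe_inv]
    show r * (s : G)⁻¹ * r⁻¹ = (r * (s : G) * r⁻¹)⁻¹
    group
  · rw [eq_top_iff, ← hS]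
    rw [Subgroup.closure_le]
    intro t ht
    apply Subgroup.subset_closure
    refine Finset.mem_coe.2 ((hmem t).2 ⟨1, Finset.mem_insert_self _ _, t,
      Finset.mem_union_left _ ht, ?_⟩)
    apply Subtype.ext
    show 1 * (t : G) * 1⁻¹ = t
    simp
  · intro g t ht
    obtain ⟨r, hr, s, hs, rfl⟩ := (hmem t).1 ht
    let r1 : G := ((g * r : G) : G ⧸ N).out
    have h1 : ((r1 : G) : G ⧸ N) = ((g * r : G) : G ⧸ N) := QuotientGroup.out_eq' _
    have h2 : g * r * r1⁻¹ ∈ N := hN.mem_comm (QuotientGroup.eq.1 h1)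
    refine ⟨f (r1, s), (hmem _).2 ⟨r1, Finset.mem_insert_of_mem
      (Finset.mem_image_of_mem _ (Finset.mem_univ _)), s, hs, rfl⟩, ⟨g * r * r1⁻¹, h2⟩, ?_⟩
    show g * (r * (s : G) * r⁻¹) * g⁻¹ = (g * r * r1⁻¹) * (r1 * (s : G) * r1⁻¹) * (g * r * r1⁻¹)⁻¹
    group

end Pool.Agent.K6.H15.HO.SET
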