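import Mathlib

/-!
# Finite orbits of horofunctions for Cayley metrics of virtually nilpotent groups: statements

Aim (MP_3614fc_al): every infinite finitely generated virtually nilpotent group `G` and every
finite set `S₀` have a finite symmetric generating set `S ⊇ S₀` such that some horofunction of
the word metric of `S` has a finite orbit.
-/

set_option autoImplicit false

open Filter Topology

namespace Pool.Agent.K6.H15.HO

/-- Ore property of all submonoids of a nilpotent group. -/
def S_ORE : Prop :=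
  ∀ (G : Type) [Group G], Group.IsNilpotent G → ∀ P : Submonoid G, ∀ p ∈ P, ∀ q ∈ P,
    ∃ u ∈ P, ∃ v ∈ P, p * u = q * v

/-- A submonoid with additive length, with the Ore property and generating a subgroup of finite
index gives a horofunction with finite orbit. -/
def S_FIX : Prop :=
  ∀ (G : Type) [Group G] (len : G → ℕ), Infinite G →
    (∀ a b, len (a * b) ≤ len a + len b) → (∀ a, len a⁻¹ = len a) →
    (∀ R : ℕ, {g : G | len g ≤ R}.Finite) →
    ∀ P : Submonoid G, (∀ p ∈ P, ∀ q ∈ P, len (p * q) = len p + len q) →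
    (∀ p ∈ P, ∀ q ∈ P, ∃ u ∈ P, ∃ v ∈ P, p * u = q * v) →
    (Subgroup.closure (P : Set G)).FiniteIndex →
    ∃ f : G → ℝ,
      (∃ x : ℕ → G, Tendsto (fun n : ℕ => (len (x n)⁻¹ : ℝ)) atTop atTop ∧
        ∀ y : G, Tendsto (fun n : ℕ => (len ((x n)⁻¹ * y) : ℝ) - (len (x n)⁻¹ : ℝ))
          atTop (𝓝 (f y))) ∧
      (Set.range (fun g : G => fun y : G => f (g⁻¹ * y) - f g⁻¹)).Finite

/-- In a finitely generated nilpotent group a subgroup of finite index modulo the commutator
subgroup has finite index. -/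
def S_FIN : Prop :=
  ∀ (N : Type) [Group N], Group.IsNilpotent N → Group.FG N → ∀ H : Subgroup N,
    (H ⊔ commutator N).FiniteIndex → H.FiniteIndex

/-- A facet of the convex hull of a finite symmetric generating set of a finitely generated
infinite abelian group, and the subgroup generated by the multiples of its elements. -/
def S_LPA : Prop :=
  ∀ (A : Type) [AddCommGroup A], AddGroup.FG A → Infinite A →
    ∀ T : Finset A, (∀ t ∈ T, -t ∈ T) → AddSubgroup.closure (T : Set A) = ⊤ →
    ∃ (l : A →+ ℤ) (m : ℤ), 0 < m ∧ (∀ t ∈ T, l t ≤ m) ∧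
      ∀ L : ℕ, 0 < L →
        (AddSubgroup.closure ((fun t : A => L • t) '' {t | t ∈ T ∧ l t = m})).FiniteIndex

/-- Lower bound for the length: a homomorphism on a normal subgroup of finite index grows at most
by `K` along each letter, if `K` is large. -/
def S_LOW : Prop :=
  ∀ (G : Type) [Group G] (N : Subgroup G) (hN : N.Normal), N.FiniteIndex →
    ∀ (l : N →* Multiplicative ℤ) (S₀ : Finset G), ∃ C : ℤ, ∀ K : ℤ, C ≤ K →
      ∀ E : Set G, (∀ e ∈ E, ∃ he : e ∈ N, ∀ g : G,
          Multiplicative.toAdd (l ⟨g * e * g⁻¹, hN.conj_mem e he g⟩) ≤ K) →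
      ∀ w : List G, (∀ s ∈ w, s ∈ S₀ ∨ s ∈ E) → ∀ h : w.prod ∈ N,
        Multiplicative.toAdd (l ⟨w.prod, h⟩) ≤ K * w.length

/-- A normal nilpotent subgroup of finite index with a finite symmetric generating set which is
invariant under conjugation up to conjugation inside the subgroup. -/
def S_SET : Prop :=
  ∀ (G : Type) [Group G], Group.FG G → (∃ H : Subgroup G, H.FiniteIndex ∧ Group.IsNilpotent ↥H) →
    ∃ N : Subgroup G, N.Normal ∧ N.FiniteIndex ∧ Group.IsNilpotent ↥N ∧ ∃ T : Finset N,
      (∀ t ∈ T, t⁻¹ ∈ T) ∧ Subgroup.closure (T : Set N) = ⊤ ∧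
      ∀ g : G, ∀ t ∈ T, ∃ t' ∈ T, ∃ n : N, g * (t : G) * g⁻¹ = (n : G) * (t' : G) * (n : G)⁻¹

end Pool.Agent.K6.H15.HO
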