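import Pool.Agent.K6.H15.HO.Facet
import Pool.Agent.K6.H15.HO.Crit

/-!
# Weighted facets and arbitrary word metrics
-/

set_option autoImplicit false

open Filter Topology
open Pool.Agent.Results.MP_3614fc_al.VirtuallyAbelian (wordLength IsHorofunction act)

namespace Pool.Agent.K6.H15.HO

/-- Weighted facets in abelian groups. -/
theorem wlp (hLPA : S_LPA) (A : Type) [AddCommGroup A] (hfg : AddGroup.FG A) (hi : Infinite A)
    (T : Finset A) (hT : ∀ t ∈ T, -t ∈ T) (hT' : AddSubgroup.closure (T : Set A) = ⊤)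
    (k : A → ℕ) (hk : ∀ t ∈ T, 0 < k t) (hk' : ∀ t ∈ T, k (-t) = k t) :
    ∃ (l : A →+ ℤ) (m : ℤ), 0 < m ∧ (∀ t ∈ T, l t ≤ m * k t) ∧
      (AddSubgroup.closure {t | t ∈ T ∧ l t = m * k t}).FiniteIndex := by
  classical
  set M : ℕ := ∏ t ∈ T, k t with hM
  have hM0 : 0 < M := Finset.prod_pos hk
  have hdvd : ∀ t ∈ T, k t ∣ M := fun t ht => Finset.dvd_prod_of_mem k ht
  let u : A → A := fun t => (M / k t) • t
  have hu : ∀ t ∈ T, k t • u t = M • t := by
    intro t ht
    show k t • ((M / k t) • t) = M • t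
    rw [smul_smul, Nat.mul_div_cancel' (hdvd t ht)]
  set A' : AddSubgroup A := AddSubgroup.closure (u '' (T : Set A)) with hA'
  have hMA : ∀ a : A, M • a ∈ A' := by
    intro a
    have ha : a ∈ AddSubgroup.closure (T : Set A) := by rw [hT']; trivial
    induction ha using AddSubgroup.closure_induction with
    | mem t ht =>
      rw [← hu t ht]
      exact A'.nsmul_mem (AddSubgroup.subset_closure ⟨t, ht, rfl⟩) _
    | zero => simp
    | add x y hx hy ihx ihy => rw [nsmul_add]; exact A'.add_mem ihx ihy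
    | neg x hx ih => rw [smul_neg]; exact A'.neg_mem ih
  have hfin : Finite (A ⧸ A') := by
    have : Module.Finite ℤ A := Module.Finite.iff_addGroup_fg.2 hfg
    have h1 : Module.Finite ℤ (A ⧸ A') :=
      Module.Finite.of_surjective (QuotientAddGroup.mk' A').toIntLinearMap
        (QuotientAddGroup.mk'_surjective A')
    apply AddCommGroup.finite_of_fg_isAddTorsion
    intro b
    obtain ⟨a, rfl⟩ := QuotientAddGroup.mk'_surjective A' b
    rw [isOfFinAddOrder_iff_nsmul_eq_zero]
    refine ⟨M, hM0, ?_⟩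
    rw [← map_nsmul]
    exact (QuotientAddGroup.eq_zero_iff _).2 (hMA a)
  have hfi : A'.FiniteIndex := AddSubgroup.finiteIndex_iff_finite_quotient.2 hfin
  have hi' : Infinite A' := by
    by_contra hc
    rw [not_infinite_iff_finite] at hc
    have : Finite A := (AddSubgroup.finite_iff_finite_and_finiteIndex (H := A')).2 ⟨hc, hfi⟩
    exact not_finite_iff_infinite.2 hi this
  let T' : Finset A' := T.attach.image (fun t => ⟨u t.1, AddSubgroup.subset_closure ⟨t.1, t.2, rfl⟩⟩)
  have hmemT' : ∀ b : A', b ∈ T' ↔ (b : A) ∈ u '' (T : Set A) := by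
    intro b
    constructor
    · intro hb
      obtain ⟨t, -, rfl⟩ := Finset.mem_image.1 hb
      exact ⟨t.1, t.2, rfl⟩
    · rintro ⟨t, ht, h⟩
      exact Finset.mem_image.2 ⟨⟨t, ht⟩, Finset.mem_attach _ _, Subtype.ext h⟩
  have hT'cl : AddSubgroup.closure (T' : Set A') = ⊤ := by
    have h1 : (T' : Set A') = ((↑) : A' → A) ⁻¹' (u '' (T : Set A)) := by
      ext b
      exact hmemT' b
    rw [h1]
    exact AddSubgroup.closure_closure_coe_preimage
  have hT'sym : ∀ t ∈ T', -t ∈ T' := by
    intro b hb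
    obtain ⟨t, ht, h⟩ := (hmemT' b).1 hb
    refine (hmemT' (-b)).2 ⟨-t, hT t ht, ?_⟩
    show (M / k (-t)) • (-t) = ((-b : A') : A)
    rw [hk' t ht, smul_neg]
    have h' : (M / k t) • t = (b : A) := h
    rw [h']
    rfl
  have hfg' : AddGroup.FG A' := by
    rw [AddGroup.fg_def]
    exact ⟨T', hT'cl⟩
  obtain ⟨l', m, hm, hle, hL⟩ := hLPA A' hfg' hi' T' hT'sym hT'cl
  let l : A →+ ℤ :=
    { toFun := fun a => l' ⟨M • a, hMA a⟩
      map_zero' := by
        have : (⟨M • (0 : A), hMA 0⟩ : A') = 0 := Subtype.ext (by simp)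
        rw [this, map_zero]
      map_add' := fun a b => by
        have : (⟨M • (a + b), hMA (a + b)⟩ : A') = ⟨M • a, hMA a⟩ + ⟨M • b, hMA b⟩ :=
          Subtype.ext (by simp)
        rw [this, map_add] }
  have hlt : ∀ t (ht : t ∈ T), l t = k t * l' ⟨u t, AddSubgroup.subset_closure ⟨t, ht, rfl⟩⟩ := by
    intro t ht
    have : (⟨M • t, hMA t⟩ : A') = k t • ⟨u t, AddSubgroup.subset_closure ⟨t, ht, rfl⟩⟩ :=
      Subtype.ext (hu t ht).symm
    show l' ⟨M • t, hMA t⟩ = _
    rw [this, map_nsmul, nsmul_eq_mul]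
  refine ⟨l, m, hm, ?_, ?_⟩
  · intro t ht
    rw [hlt t ht, mul_comm m]
    exact mul_le_mul_of_nonneg_left (hle _ ((hmemT' _).2 ⟨t, ht, rfl⟩)) (Int.natCast_nonneg _)
  · have h1 := hL 1 one_pos
    have h2 : ((AddSubgroup.closure ((fun t : A' => 1 • t) '' {t | t ∈ T' ∧ l' t = m})).map
        A'.subtype).FiniteIndex := by
      constructor
      rw [AddSubgroup.index_map_subtype]
      exact mul_ne_zero h1.index_ne_zero hfi.index_ne_zero
    refine AddSubgroup.finiteIndex_of_le (H := (AddSubgroup.closure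
      ((fun t : A' => 1 • t) '' {t | t ∈ T' ∧ l' t = m})).map A'.subtype) ?_
    rw [AddMonoidHom.map_closure, AddSubgroup.closure_le]
    rintro _ ⟨_, ⟨b, ⟨hb, hb'⟩, rfl⟩, rfl⟩
    obtain ⟨t, ht, h⟩ := (hmemT' b).1 hb
    have hbu : b = ⟨u t, AddSubgroup.subset_closure ⟨t, ht, rfl⟩⟩ := Subtype.ext h.symm
    show ((1 • b : A') : A) ∈ _
    rw [one_smul, ← h]
    apply AddSubgroup.nsmul_mem
    apply AddSubgroup.subset_closure
    refine ⟨ht, ?_⟩
    rw [hlt t ht, ← hbu, hb', mul_comm]

/-- Weighted facets in nilpotent groups. -/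
theorem wfacet (hFIN : S_FIN) (hLPA : S_LPA) (N : Type) [Group N] (hn : Group.IsNilpotent N)
    (hfg : Group.FG N) (hi : Infinite N) (T : Finset N) (hT : ∀ t ∈ T, t⁻¹ ∈ T)
    (hT' : Subgroup.closure (T : Set N) = ⊤) (k : N → ℕ) (hk : ∀ t ∈ T, 0 < k t)
    (hk' : ∀ t ∈ T, k t⁻¹ = k t) :
    ∃ (l : N →* Multiplicative ℤ) (m : ℤ), 0 < m ∧
      (∀ t ∈ T, Multiplicative.toAdd (l t) ≤ m * k t) ∧
      (Subgroup.closure {t | t ∈ T ∧ Multiplicative.toAdd (l t) = m * k t}).FiniteIndex := by
  classical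
  have hia := infinite_ab hFIN N hn hfg hi
  let A := Additive (Abelianization N)
  have hfgA : AddGroup.FG A := by
    have := hfg
    have h1 : Group.FG (Abelianization N) := QuotientGroup.fg (commutator N)
    exact (AddGroup.fg_iff_mul_fg).2 h1
  have hiA : Infinite A := hia
  let TA : Finset A := T.image (fun t => Additive.ofMul (Abelianization.of t))
  have hTA : ∀ t ∈ TA, -t ∈ TA := by
    intro t ht
    obtain ⟨u, hu, rfl⟩ := Finset.mem_image.1 ht
    exact Finset.mem_image.2 ⟨u⁻¹, hT u hu, by simp⟩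
  have hTA' : AddSubgroup.closure (TA : Set A) = ⊤ := by
    have h1 : Subgroup.closure (Abelianization.of '' (T : Set N)) = ⊤ := by
      rw [← MonoidHom.map_closure, hT']
      rw [← MonoidHom.range_eq_map]
      exact MonoidHom.range_eq_top.2 (QuotientGroup.mk'_surjective _)
    have h2 := Subgroup.toAddSubgroup_closure (Abelianization.of '' (T : Set N))
    rw [h1] at h2
    have h3 : (TA : Set A) = Additive.toMul ⁻¹' (Abelianization.of '' (T : Set N)) := by
      ext a
      simp only [TA, Finset.coe_image, Set.mem_image, Finset.mem_coe, Set.mem_preimage]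
      constructor
      · rintro ⟨t, ht, rfl⟩
        exact ⟨t, ht, rfl⟩
      · rintro ⟨t, ht, h⟩
        exact ⟨t, ht, by rw [h]; rfl⟩
    rw [h3, ← h2]
    rfl
  let W : A → Set ℕ := fun a => {j | ∃ t ∈ T, Additive.ofMul (Abelianization.of t) = a ∧ k t = j}
  let kA : A → ℕ := fun a => sInf (W a)
  have hW : ∀ a ∈ TA, ∃ t ∈ T, Additive.ofMul (Abelianization.of t) = a ∧ k t = kA a := by
    intro a ha
    obtain ⟨t, ht, rfl⟩ := Finset.mem_image.1 ha
    exact Nat.sInf_mem (s := W _) ⟨k t, t, ht, rfl, rfl⟩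
  have hW' : ∀ t ∈ T, kA (Additive.ofMul (Abelianization.of t)) ≤ k t := fun t ht =>
    Nat.sInf_le ⟨t, ht, rfl, rfl⟩
  have hkA : ∀ a ∈ TA, 0 < kA a := by
    intro a ha
    obtain ⟨t, ht, -, h⟩ := hW a ha
    rw [← h]
    exact hk t ht
  have hkA1 : ∀ a ∈ TA, kA (-a) ≤ kA a := by
    intro a ha
    obtain ⟨t, ht, h1, h2⟩ := hW a ha
    have h3 := hW' t⁻¹ (hT t ht)
    rw [hk' t ht, h2] at h3
    rw [← h1] at h3 ⊢
    exact h3
  have hkA' : ∀ a ∈ TA, kA (-a) = kA a := by
    intro a ha
    apply le_antisymm (hkA1 a ha)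
    have := hkA1 (-a) (hTA a ha)
    rwa [neg_neg] at this
  obtain ⟨l, m, hm, hle, hL⟩ := wlp hLPA A hfgA hiA TA hTA hTA' kA hkA hkA'
  let f : Abelianization N →* Multiplicative ℤ :=
    { toFun := fun a => Multiplicative.ofAdd (l (Additive.ofMul a))
      map_one' := by simp
      map_mul' := fun a b => by simp }
  refine ⟨f.comp Abelianization.of, m, hm, ?_, ?_⟩
  · intro t ht
    refine (hle _ (Finset.mem_image.2 ⟨t, ht, rfl⟩)).trans ?_
    exact mul_le_mul_of_nonneg_left (by exact_mod_cast hW' t ht) hm.le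
  · set X : Set N := {t | t ∈ T ∧ Multiplicative.toAdd ((f.comp Abelianization.of) t) = m * k t}
      with hX
    have h2 : (Subgroup.closure (Abelianization.of '' X)).FiniteIndex := by
      have h3 := Subgroup.toAddSubgroup_closure (Abelianization.of '' X)
      have h4 : (AddSubgroup.closure {t | t ∈ TA ∧ l t = m * kA t}) ≤
          Subgroup.toAddSubgroup (Subgroup.closure (Abelianization.of '' X)) := by
        rw [h3, AddSubgroup.closure_le]
        rintro a ⟨ha, ha'⟩
        obtain ⟨t, ht, h5, h6⟩ := hW a ha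
        apply AddSubgroup.subset_closure
        refine ⟨t, ⟨ht, ?_⟩, ?_⟩
        · rw [h6, ← ha', ← h5]
          rfl
        · rw [← h5]
          rfl
      have h5 := AddSubgroup.finiteIndex_of_le h4
      exact (Subgroup.finiteIndex_toAddSubgroup_iff).1 h5
    have h6 : ((Subgroup.closure (Abelianization.of '' X)).comap
        (Abelianization.of : N →* Abelianization N)).FiniteIndex := by
      constructor
      have hsur : Function.Surjective (Abelianization.of : N →* Abelianization N) :=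
        QuotientGroup.mk'_surjective _
      rw [Subgroup.index_comap_of_surjective _ hsur]
      exact h2.index_ne_zero
    have h7 := Subgroup.finiteIndex_of_le (comap_closure N X)
    exact hFIN N hn hfg _ h7

end Pool.Agent.K6.H15.HO
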